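import Mathlib

set_option autoImplicit false
open MeasureTheory Set Filter Topology
open scoped ENNReal ContDiff

/-! Besov norms (first differences, smoothness `0 < α < 1`) and Besov capacities. -/

namespace Pool.Agent.W784.BC

/-- The norm of the inhomogeneous Besov space `Λ^{pq}_α(ℝⁿ)`, `0 < α < 1`:
`‖u‖_p + (∫ (‖u(· + h) - u‖_p / |h|^α)^q dh / |h|^n)^{1/q}`. -/
noncomputable def besovNorm (n : ℕ) (α p q : ℝ) (u : EuclideanSpace ℝ (Fin n) → ℝ) : ℝ≥0∞ :=
  eLpNorm u (ENNReal.ofReal p) volume +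
    (∫⁻ h : EuclideanSpace ℝ (Fin n),
      (eLpNorm (fun x => u (x + h) - u x) (ENNReal.ofReal p) volume / ENNReal.ofReal (‖h‖ ^ α)) ^ q
        / ENNReal.ofReal (‖h‖ ^ n)) ^ (1 / q)

/-- The Besov capacity of a compact set `K`: the infimum of `|u|^p` over the smooth compactly
supported `u` with `u ≥ 1` on `K`. -/
noncomputable def besovCap (n : ℕ) (α p q : ℝ) (K : Set (EuclideanSpace ℝ (Fin n))) : ℝ≥0∞ :=
  ⨅ (u : EuclideanSpace ℝ (Fin n) → ℝ) (_ : ContDiff ℝ ∞ u) (_ : HasCompactSupport u)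
    (_ : ∀ x ∈ K, 1 ≤ u x), (besovNorm n α p q u) ^ p

end Pool.Agent.W784.BC
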