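import Pool.Agent.W784.BC.Defs

set_option autoImplicit false
open MeasureTheory Set Filter Topology
open scoped ENNReal

/-! Partition of a dyadic cube into slices of cubes of different levels. -/

namespace Pool.Agent.W784.BC

abbrev E (k : ℕ) := EuclideanSpace ℝ (Fin (k + 1))

variable {k : ℕ}

/-- half-open cube with corner `z` and side `r` -/
def cb (z : E k) (r : ℝ) : Set (E k) := {x | ∀ i, z i ≤ x i ∧ x i < z i + r}

/-- index set of the pieces of a cube -/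
def Ix (k m : ℕ) : Type := Σ j : Fin (2 ^ m), Fin (2 ^ (j : ℕ)) × (Fin k → Fin (2 ^ (m + (j : ℕ))))

instance (k m : ℕ) : Fintype (Ix k m) := by unfold Ix; infer_instance

/-- level of a piece -/
def tt {m : ℕ} (c : Ix k m) : ℕ := m + (c.1 : ℕ)

/-- integer position of a piece -/
def ww {m : ℕ} (c : Ix k m) : Fin (k + 1) → ℕ :=
  Fin.cons ((c.1 : ℕ) * 2 ^ (c.1 : ℕ) + (c.2.1 : ℕ)) (fun i => ((c.2.2 i : ℕ)))

/-- corner of a piece in a cube of level `L` with corner `z` -/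
noncomputable def zz {m : ℕ} (z : E k) (L : ℕ) (c : Ix k m) : E k :=
  WithLp.toLp 2 (fun i => z i + (ww c i : ℝ) / 2 ^ (L + tt c))

theorem zz_apply {m : ℕ} (z : E k) (L : ℕ) (c : Ix k m) (i : Fin (k + 1)) :
    zz z L c i = z i + (ww c i : ℝ) / 2 ^ (L + tt c) := rfl

theorem ww_lt {m : ℕ} (c : Ix k m) (i : Fin (k + 1)) : ww c i < 2 ^ tt c := by
  obtain ⟨j, a, b⟩ := c
  unfold ww tt
  refine Fin.cases ?_ (fun i => ?_) i
  · simp only [Fin.cons_zero]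
    have h1 := j.2
    have h2 := a.2
    have h3 : (j : ℕ) * 2 ^ (j : ℕ) + (a : ℕ) < ((j : ℕ) + 1) * 2 ^ (j : ℕ) := by
      rw [add_mul, one_mul]; omega
    calc (j : ℕ) * 2 ^ (j : ℕ) + (a : ℕ) < ((j : ℕ) + 1) * 2 ^ (j : ℕ) := h3
      _ ≤ 2 ^ m * 2 ^ (j : ℕ) := Nat.mul_le_mul_right _ h1
      _ = 2 ^ (m + (j : ℕ)) := (pow_add 2 m _).symm
  · simp only [Fin.cons_succ]
    exact (b i).2

/-- pieces are subsets -/
theorem piece_sub {m : ℕ} (z : E k) (L : ℕ) (c : Ix k m) :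
    cb (zz z L c) (1 / 2 ^ (L + tt c)) ⊆ cb z (1 / 2 ^ L) := by
  intro x hx i
  obtain ⟨h1, h2⟩ := hx i
  rw [zz_apply] at h1 h2
  have h3 : (0:ℝ) ≤ (ww c i : ℝ) / 2 ^ (L + tt c) := by positivity
  have h4 : ((ww c i : ℝ) + 1) / 2 ^ (L + tt c) ≤ 1 / 2 ^ L := by
    have h5 : (ww c i : ℝ) + 1 ≤ 2 ^ tt c := by
      have := ww_lt c i
      exact_mod_cast this
    rw [div_le_div_iff₀ (by positivity) (by positivity), one_mul, pow_add, mul_comm]
    exact mul_le_mul_of_nonneg_left h5 (by positivity)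
  constructor
  · linarith
  · rw [add_div] at h4
    linarith

/-- the piece containing `x` is determined by `x` -/
theorem piece_unique {m : ℕ} (z : E k) (L : ℕ) (c c' : Ix k m) (x : E k)
    (h : x ∈ cb (zz z L c) (1 / 2 ^ (L + tt c))) (h' : x ∈ cb (zz z L c') (1 / 2 ^ (L + tt c'))) :
    c = c' := by
  -- integer characterisation
  have key : ∀ c : Ix k m, x ∈ cb (zz z L c) (1 / 2 ^ (L + tt c)) → ∀ i,
      ⌊(x i - z i) * 2 ^ (L + tt c)⌋₊ = ww c i := by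
    intro c hc i
    obtain ⟨h1, h2⟩ := hc i
    rw [zz_apply] at h1 h2
    have hp : (0:ℝ) < 2 ^ (L + tt c) := by positivity
    have h3 : (ww c i : ℝ) ≤ (x i - z i) * 2 ^ (L + tt c) := by
      have : (ww c i : ℝ) / 2 ^ (L + tt c) ≤ x i - z i := by linarith
      rwa [div_le_iff₀ hp] at this
    have h4 : (x i - z i) * 2 ^ (L + tt c) < (ww c i : ℝ) + 1 := by
      have : x i - z i < ((ww c i : ℝ) + 1) / 2 ^ (L + tt c) := by rw [add_div]; linarith
      rwa [lt_div_iff₀ hp] at this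
    rw [Nat.floor_eq_iff ((Nat.cast_nonneg _).trans h3)]
    exact ⟨h3, h4⟩
  have hj : ∀ c : Ix k m, x ∈ cb (zz z L c) (1 / 2 ^ (L + tt c)) →
      ⌊(x 0 - z 0) * 2 ^ (L + m)⌋₊ = (c.1 : ℕ) := by
    intro c hc
    obtain ⟨h1, h2⟩ := hc 0
    rw [zz_apply] at h1 h2
    obtain ⟨j, a, b⟩ := c
    simp only [ww, tt, Fin.cons_zero] at h1 h2 ⊢
    have hp : (0:ℝ) < 2 ^ (L + m) := by positivity
    have hp2 : (0:ℝ) < 2 ^ (j : ℕ) := by positivity
    have ha : ((a : ℕ) : ℝ) + 1 ≤ 2 ^ (j : ℕ) := by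
      have := a.2
      exact_mod_cast this
    have e : (2:ℝ) ^ (L + (m + (j : ℕ))) = 2 ^ (L + m) * 2 ^ (j : ℕ) := by
      rw [← pow_add]; congr 1; ring
    rw [e] at h1 h2
    push_cast at h1 h2
    have h3 : ((j : ℕ) : ℝ) / 2 ^ (L + m) ≤ x 0 - z 0 := by
      have : ((j : ℕ) : ℝ) / 2 ^ (L + m) ≤ (((j : ℕ) : ℝ) * 2 ^ (j : ℕ) + ((a : ℕ) : ℝ)) / (2 ^ (L + m) * 2 ^ (j : ℕ)) := by
        rw [div_le_div_iff₀ hp (by positivity)]
        have h0 : (0:ℝ) ≤ ((a : ℕ) : ℝ) * 2 ^ (L + m) := by positivity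
        nlinarith
      linarith
    have h4 : x 0 - z 0 < (((j : ℕ) : ℝ) + 1) / 2 ^ (L + m) := by
      have h5 : (((j : ℕ) : ℝ) * 2 ^ (j : ℕ) + ((a : ℕ) : ℝ)) / (2 ^ (L + m) * 2 ^ (j : ℕ))
          + 1 / (2 ^ (L + m) * 2 ^ (j : ℕ)) ≤ (((j : ℕ) : ℝ) + 1) / 2 ^ (L + m) := by
        rw [← add_div, div_le_div_iff₀ (by positivity) hp]
        nlinarith
      linarith
    rw [div_le_iff₀ hp] at h3
    rw [lt_div_iff₀ hp] at h4
    rw [Nat.floor_eq_iff ((Nat.cast_nonneg _).trans h3)]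
    exact ⟨h3, h4⟩
  have e1 := hj c h
  have e2 := hj c' h'
  have k1 := key c h
  have k2 := key c' h'
  obtain ⟨j, a, b⟩ := c
  obtain ⟨j', a', b'⟩ := c'
  have hjj : j = j' := Fin.ext (e1.symm.trans e2)
  subst hjj
  have hw : ∀ i, ww (⟨j, a, b⟩ : Ix k m) i = ww (⟨j, a', b'⟩ : Ix k m) i := fun i =>
    (k1 i).symm.trans (k2 i)
  have ha : a = a' := by
    have := hw 0
    simp only [ww, Fin.cons_zero] at this
    exact Fin.ext (by omega)
  have hb : b = b' := by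
    funext i
    have := hw i.succ
    simp only [ww, Fin.cons_succ] at this
    exact Fin.ext this
  rw [ha, hb]

/-- every point of the cube is in some piece -/
theorem piece_exists {m : ℕ} (z : E k) (L : ℕ) (x : E k) (h : x ∈ cb z (1 / 2 ^ L)) :
    ∃ c : Ix k m, x ∈ cb (zz z L c) (1 / 2 ^ (L + tt c)) := by
  have h0 : ∀ i, 0 ≤ x i - z i := fun i => by linarith [(h i).1]
  have h1 : ∀ i, (x i - z i) * 2 ^ L < 1 := fun i => by
    have h2 : x i - z i < 1 / 2 ^ L := by linarith [(h i).2]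
    rwa [lt_div_iff₀ (by positivity)] at h2
  have hfl : ∀ t i, ⌊(x i - z i) * 2 ^ (L + t)⌋₊ < 2 ^ t := by
    intro t i
    rw [Nat.floor_lt (mul_nonneg (h0 i) (by positivity))]
    push_cast
    rw [pow_add, ← mul_assoc]
    have := mul_lt_mul_of_pos_right (h1 i) (show (0:ℝ) < 2 ^ t by positivity)
    linarith
  set j : ℕ := ⌊(x 0 - z 0) * 2 ^ (L + m)⌋₊ with hj
  have hjlt : j < 2 ^ m := hfl m 0
  have hp : (0:ℝ) < 2 ^ j := by positivity
  have e : (2:ℝ) ^ (L + (m + j)) = 2 ^ (L + m) * 2 ^ j := by rw [← pow_add]; congr 1; ring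
  have hj1 : (j : ℝ) ≤ (x 0 - z 0) * 2 ^ (L + m) := Nat.floor_le (mul_nonneg (h0 0) (by positivity))
  have hj2 : (x 0 - z 0) * 2 ^ (L + m) < j + 1 := Nat.lt_floor_add_one _
  set q : ℕ := ⌊(x 0 - z 0) * 2 ^ (L + (m + j))⌋₊ with hq
  have hq1 : j * 2 ^ j ≤ q := by
    rw [hq]
    apply Nat.le_floor
    push_cast
    rw [e, ← mul_assoc]
    exact mul_le_mul_of_nonneg_right hj1 hp.le
  have hq2 : q < (j + 1) * 2 ^ j := by
    rw [hq, Nat.floor_lt (mul_nonneg (h0 0) (by positivity))]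
    push_cast
    rw [e, ← mul_assoc]
    exact mul_lt_mul_of_pos_right hj2 hp
  have hqlt : q - j * 2 ^ j < 2 ^ j := by
    rw [add_mul, one_mul] at hq2
    omega
  obtain ⟨c, hc1, hw⟩ : ∃ c : Ix k m, (c.1 : ℕ) = j ∧
      ∀ i, ww c i = ⌊(x i - z i) * 2 ^ (L + (m + j))⌋₊ := by
    refine ⟨(⟨⟨j, hjlt⟩, ⟨⟨q - j * 2 ^ j, hqlt⟩,
      fun i => ⟨⌊(x i.succ - z i.succ) * 2 ^ (L + (m + j))⌋₊, hfl (m + j) i.succ⟩⟩⟩ : Ix k m), rfl,
      fun i => ?_⟩
    refine Fin.cases ?_ (fun i => ?_) i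
    · simp only [ww, Fin.cons_zero]
      omega
    · simp only [ww, Fin.cons_succ]
  refine ⟨c, fun i => ?_⟩
  have ht : tt c = m + j := by unfold tt; rw [hc1]
  rw [zz_apply, hw i, ht]
  have hP : (0:ℝ) < 2 ^ (L + (m + j)) := by positivity
  have f1 : ((⌊(x i - z i) * 2 ^ (L + (m + j))⌋₊ : ℕ) : ℝ) ≤ (x i - z i) * 2 ^ (L + (m + j)) :=
    Nat.floor_le (mul_nonneg (h0 i) (by positivity))
  have f2 : (x i - z i) * 2 ^ (L + (m + j)) < (⌊(x i - z i) * 2 ^ (L + (m + j))⌋₊ : ℕ) + 1 :=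
    Nat.lt_floor_add_one _
  constructor
  · have : ((⌊(x i - z i) * 2 ^ (L + (m + j))⌋₊ : ℕ) : ℝ) / 2 ^ (L + (m + j)) ≤ x i - z i := by
      rw [div_le_iff₀ hP]; exact f1
    linarith
  · have : x i - z i < (((⌊(x i - z i) * 2 ^ (L + (m + j))⌋₊ : ℕ) : ℝ) + 1) / 2 ^ (L + (m + j)) := by
      rw [lt_div_iff₀ hP]; exact f2
    rw [add_div] at this
    linarith

/-- the pieces form a partition -/
theorem piece_sum {m : ℕ} (z : E k) (L : ℕ) (x : E k) {M : Type*} [AddCommMonoid M] (a : M) :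
    ∑ c : Ix k m, (cb (zz z L c) (1 / 2 ^ (L + tt c))).indicator (fun _ => a) x
      = (cb z (1 / 2 ^ L)).indicator (fun _ => a) x := by
  classical
  by_cases h : x ∈ cb z (1 / 2 ^ L)
  · obtain ⟨c, hc⟩ := piece_exists (m := m) z L x h
    rw [Finset.sum_eq_single c]
    · rw [indicator_of_mem hc, indicator_of_mem h]
    · intro c' _ hne
      rw [indicator_of_notMem]
      intro hc'
      exact hne (piece_unique z L c' c x hc' hc)
    · intro hc2
      exact absurd (Finset.mem_univ c) hc2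
  · rw [indicator_of_notMem h]
    apply Finset.sum_eq_zero
    intro c _
    rw [indicator_of_notMem]
    intro hc
    exact h (piece_sub z L c hc)

/-- total weight of a slice -/
theorem slice_weight {m : ℕ} (j : Fin (2 ^ m)) :
    ∑ _c : Fin (2 ^ (j : ℕ)) × (Fin k → Fin (2 ^ (m + (j : ℕ)))), (1 / 2 : ℝ) ^ ((k + 1) * (m + (j : ℕ)))
      = (1 / 2) ^ m := by
  rw [Finset.sum_const, Finset.card_univ, Fintype.card_prod, Fintype.card_fin, Fintype.card_fun,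
    Fintype.card_fin, Fintype.card_fin, nsmul_eq_mul]
  push_cast
  rw [← pow_mul, ← pow_add]
  have h1 : (2:ℝ) ^ ((j : ℕ) + (m + (j : ℕ)) * k) * 2 ^ m = 2 ^ ((k + 1) * (m + (j : ℕ))) := by
    rw [← pow_add]; congr 1; ring
  rw [one_div, inv_pow, inv_pow, ← h1]
  field_simp

end Pool.Agent.W784.BC
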