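import Pool.Agent.W784.BC.P1

set_option autoImplicit false
open MeasureTheory Set Filter Topology
open scoped ENNReal

/-! The tree of cubes. -/

namespace Pool.Agent.W784.BC

variable {k : ℕ}

/-- the level of a cube of stage `κ` with mass `2^{-N}` -/
noncomputable def lev (k : ℕ) (d : ℝ) (κ N : ℕ) : ℕ := ⌈((N:ℝ) + ((k:ℝ) + 1) * κ) / d⌉₊

theorem lev_zero (k : ℕ) (d : ℝ) : lev k d 0 0 = 0 := by
  unfold lev; simp

theorem le_lev {d : ℝ} (hd : 0 < d) (κ N : ℕ) : (N:ℝ) + ((k:ℝ) + 1) * κ ≤ lev k d κ N * d := by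
  have := Nat.le_ceil (((N:ℝ) + ((k:ℝ) + 1) * κ) / d)
  rwa [div_le_iff₀ hd] at this

theorem lev_lt {d : ℝ} (hd : 0 < d) (κ N : ℕ) : ((lev k d κ N : ℝ) - 1) * d < (N:ℝ) + ((k:ℝ) + 1) * κ := by
  have h := Nat.ceil_lt_add_one (show 0 ≤ ((N:ℝ) + ((k:ℝ) + 1) * κ) / d by positivity)
  have h2 : (lev k d κ N : ℝ) - 1 < ((N:ℝ) + ((k:ℝ) + 1) * κ) / d := by
    have : (lev k d κ N : ℝ) < ((N:ℝ) + ((k:ℝ) + 1) * κ) / d + 1 := h
    linarith
  rwa [lt_div_iff₀ hd] at h2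

theorem lev_step {d : ℝ} (hd : 0 < d) (hdk : d ≤ (k:ℝ) + 1) (κ N t : ℕ) :
    lev k d κ N + t ≤ lev k d (κ + 1) (N + (k + 1) * t) := by
  have h1 := lev_lt (k := k) hd κ N
  have h2 := le_lev (k := k) hd (κ + 1) (N + (k + 1) * t)
  push_cast at h2
  have h3 : (((lev k d κ N : ℝ) - 1) + t + 1) * d < lev k d (κ + 1) (N + (k + 1) * t) * d + d * 0 + 0 + d := by
    have h4 : (t:ℝ) * d ≤ ((k:ℝ) + 1) * t := by
      rw [mul_comm]
      exact mul_le_mul_of_nonneg_right hdk (Nat.cast_nonneg _)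
    nlinarith
  have h5 : (((lev k d κ N : ℝ) - 1) + t + 1) < lev k d (κ + 1) (N + (k + 1) * t) + 1 := by
    by_contra hc
    push Not at hc
    have := mul_le_mul_of_nonneg_right hc hd.le
    nlinarith
  have h6 : ((lev k d κ N + t : ℕ) : ℝ) < ((lev k d (κ + 1) (N + (k + 1) * t) + 1 : ℕ) : ℝ) := by
    push_cast; linarith
  have := Nat.cast_lt.1 h6
  omega

theorem lev_strict {d : ℝ} (hd : 0 < d) (hdk : d ≤ (k:ℝ) + 1) (κ N : ℕ) {t t' : ℕ} (h : t < t') :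
    lev k d κ (N + (k + 1) * t) < lev k d κ (N + (k + 1) * t') := by
  have h1 := lev_lt (k := k) hd κ (N + (k + 1) * t)
  have h2 := le_lev (k := k) hd κ (N + (k + 1) * t')
  push_cast at h1 h2
  have h3 : (t:ℝ) + 1 ≤ t' := by exact_mod_cast h
  have h4 : ((k:ℝ) + 1) * ((t:ℝ) + 1) ≤ ((k:ℝ) + 1) * t' := mul_le_mul_of_nonneg_left h3 (by positivity)
  have h5 : (lev k d κ (N + (k + 1) * t) : ℝ) * d < lev k d κ (N + (k + 1) * t') * d := by nlinarith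
  have h6 := lt_of_mul_lt_mul_right h5 hd.le
  exact_mod_cast h6

/-- the nodes of stage `κ` -/
def Nd (k : ℕ) : ℕ → Type
  | 0 => Unit
  | κ + 1 => Nd k κ × Ix k (κ ^ 2)

instance instNd (k : ℕ) : (κ : ℕ) → Fintype (Nd k κ)
  | 0 => inferInstanceAs (Fintype Unit)
  | κ + 1 =>
    have := instNd k κ
    inferInstanceAs (Fintype (Nd k κ × Ix k (κ ^ 2)))

/-- a child -/
def chd {κ : ℕ} (ν : Nd k κ) (c : Ix k (κ ^ 2)) : Nd k (κ + 1) := (ν, c)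

/-- corner and mass exponent of a node -/
noncomputable def nd (k : ℕ) (d : ℝ) : (κ : ℕ) → Nd k κ → E k × ℕ
  | 0, _ => (0, 0)
  | κ + 1, (ν, c) => (zz (nd k d κ ν).1 (lev k d κ (nd k d κ ν).2) c,
      (nd k d κ ν).2 + (k + 1) * tt c)

theorem nd_zero (d : ℝ) (ν : Nd k 0) : nd k d 0 ν = (0, 0) := by rw [nd]

theorem nd_succ (d : ℝ) (κ : ℕ) (ν : Nd k κ) (c : Ix k (κ ^ 2)) :
    nd k d (κ + 1) (chd ν c) = (zz (nd k d κ ν).1 (lev k d κ (nd k d κ ν).2) c,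
      (nd k d κ ν).2 + (k + 1) * tt c) := by unfold chd; rw [nd]

/-- the level of a node -/
noncomputable def nl (d : ℝ) {κ : ℕ} (ν : Nd k κ) : ℕ := lev k d κ (nd k d κ ν).2

/-- the cube of a node -/
def nc (d : ℝ) {κ : ℕ} (ν : Nd k κ) : Set (E k) := cb (nd k d κ ν).1 (1 / 2 ^ nl d ν)

theorem sum_nd {κ : ℕ} {M : Type*} [AddCommMonoid M] (f : Nd k (κ + 1) → M) :
    ∑ ν, f ν = ∑ ν : Nd k κ, ∑ c : Ix k (κ ^ 2), f (chd ν c) :=
  Fintype.sum_prod_type (α₁ := Nd k κ) (α₂ := Ix k (κ ^ 2)) f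

/-- a piece -/
def mkIx {m : ℕ} (j : Fin (2 ^ m)) (b : Fin (2 ^ (j : ℕ)) × (Fin k → Fin (2 ^ (m + (j : ℕ))))) :
    Ix k m := ⟨j, b⟩

theorem tt_mk {m : ℕ} (j : Fin (2 ^ m)) (b : Fin (2 ^ (j : ℕ)) × (Fin k → Fin (2 ^ (m + (j : ℕ))))) :
    tt (mkIx j b) = m + (j : ℕ) := rfl

theorem sum_ix {m : ℕ} {M : Type*} [AddCommMonoid M] (f : Ix k m → M) :
    ∑ c, f c = ∑ j : Fin (2 ^ m), ∑ b : Fin (2 ^ (j : ℕ)) × (Fin k → Fin (2 ^ (m + (j : ℕ)))),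
      f (mkIx j b) := by
  exact Fintype.sum_sigma (fun c : Ix k m => f c)

theorem ix_weight (m : ℕ) : ∑ c : Ix k m, (1 / 2 : ℝ) ^ ((k + 1) * tt c) = 1 := by
  rw [sum_ix]
  have : ∀ j : Fin (2 ^ m), ∑ b : Fin (2 ^ (j : ℕ)) × (Fin k → Fin (2 ^ (m + (j : ℕ)))),
      (1 / 2 : ℝ) ^ ((k + 1) * tt (mkIx j b)) = (1 / 2) ^ m := fun j => slice_weight j
  rw [Finset.sum_congr rfl (fun j _ => this j), Finset.sum_const, Finset.card_univ,
    Fintype.card_fin, nsmul_eq_mul]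
  push_cast
  rw [← mul_pow]; norm_num

theorem nd_weight (d : ℝ) (κ : ℕ) : ∑ ν : Nd k κ, (1 / 2 : ℝ) ^ (nd k d κ ν).2 = 1 := by
  induction κ with
  | zero =>
    have : ∀ ν : Nd k 0, (1 / 2 : ℝ) ^ (nd k d 0 ν).2 = 1 := fun ν => by rw [nd_zero]; simp
    rw [Finset.sum_congr rfl (fun ν _ => this ν)]
    rw [Finset.sum_const]
    have : (Finset.univ : Finset (Nd k 0)).card = 1 := rfl
    rw [this]; simp
  | succ κ ih =>
    rw [sum_nd]
    have : ∀ ν : Nd k κ, ∑ c : Ix k (κ ^ 2), (1 / 2 : ℝ) ^ (nd k d (κ + 1) (chd ν c)).2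
        = (1 / 2 : ℝ) ^ (nd k d κ ν).2 := by
      intro ν
      simp only [nd_succ, pow_add]
      rw [← Finset.mul_sum, ix_weight, mul_one]
    rw [Finset.sum_congr rfl (fun ν _ => this ν), ih]

theorem child_sub {d : ℝ} (hd : 0 < d) (hdk : d ≤ (k:ℝ) + 1) {κ : ℕ} (ν : Nd k κ)
    (c : Ix k (κ ^ 2)) :
    nc d (chd ν c) ⊆ cb (zz (nd k d κ ν).1 (nl d ν) c) (1 / 2 ^ (nl d ν + tt c)) := by
  intro x hx i
  have h1 : nd k d (κ + 1) (chd ν c) = (zz (nd k d κ ν).1 (nl d ν) c,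
      (nd k d κ ν).2 + (k + 1) * tt c) := nd_succ d κ ν c
  have h2 := hx i
  rw [h1] at h2
  refine ⟨h2.1, h2.2.trans_le ?_⟩
  have h3 : nl d ν + tt c ≤ nl d (chd ν c) := by
    unfold nl
    rw [nd_succ]
    exact lev_step hd hdk κ _ _
  have h4 : (1:ℝ) / 2 ^ nl d (chd ν c) ≤ 1 / 2 ^ (nl d ν + tt c) :=
    one_div_le_one_div_of_le (by positivity) (pow_le_pow_right₀ (by norm_num) h3)
  linarith

theorem child_lev {d : ℝ} (hd : 0 < d) (hdk : d ≤ (k:ℝ) + 1) {κ : ℕ} (ν : Nd k κ)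
    (c : Ix k (κ ^ 2)) : nl d ν + tt c ≤ nl d (chd ν c) := by
  unfold nl
  rw [nd_succ]
  exact lev_step hd hdk κ _ _

/-- the cubes of a stage are disjoint -/
theorem nd_disj {d : ℝ} (hd : 0 < d) (hdk : d ≤ (k:ℝ) + 1) (κ : ℕ) (x : E k) :
    ∑ ν : Nd k κ, (nc d ν).indicator (fun _ => (1:ℝ≥0∞)) x ≤ 1 := by
  induction κ with
  | zero =>
    have : ∀ ν : Nd k 0, (nc d ν).indicator (fun _ => (1:ℝ≥0∞)) x ≤ 1 := fun ν => by
      unfold indicator; split_ifs <;> simp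
    refine (Finset.sum_le_sum (fun ν _ => this ν)).trans ?_
    rw [Finset.sum_const]
    have : (Finset.univ : Finset (Nd k 0)).card = 1 := rfl
    rw [this]; simp
  | succ κ ih =>
    rw [sum_nd]
    refine le_trans (Finset.sum_le_sum (fun ν _ => ?_)) ih
    refine le_trans (Finset.sum_le_sum (fun c _ =>
      indicator_le_indicator_of_subset (child_sub hd hdk ν c) (fun _ => by simp) x)) ?_
    exact (piece_sum (nd k d κ ν).1 (nl d ν) x (1:ℝ≥0∞)).le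

/-- the mass of the nodes of stage `κ + 1` of a given level is small -/
theorem level_mass {d : ℝ} (hd : 0 < d) (hdk : d ≤ (k:ℝ) + 1) (κ l : ℕ) :
    ∑ ν : Nd k (κ + 1), (if nl d ν = l then (1 / 2 : ℝ) ^ (nd k d (κ + 1) ν).2 else 0)
      ≤ (1 / 2) ^ (κ ^ 2) := by
  classical
  rw [sum_nd]
  have key : ∀ ν : Nd k κ, ∑ c : Ix k (κ ^ 2),
      (if nl d (chd ν c) = l then (1 / 2 : ℝ) ^ (nd k d (κ + 1) (chd ν c)).2 else 0)
      ≤ (1 / 2 : ℝ) ^ (nd k d κ ν).2 * (1 / 2) ^ (κ ^ 2) := by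
    intro ν
    rw [sum_ix]
    have h1 : ∀ j : Fin (2 ^ κ ^ 2), ∑ b : Fin (2 ^ (j : ℕ)) × (Fin k → Fin (2 ^ (κ ^ 2 + (j : ℕ)))),
        (if nl d (chd ν (mkIx j b)) = l
          then (1 / 2 : ℝ) ^ (nd k d (κ + 1) (chd ν (mkIx j b))).2 else 0)
        = if lev k d (κ + 1) ((nd k d κ ν).2 + (k + 1) * (κ ^ 2 + (j : ℕ))) = l
          then (1 / 2 : ℝ) ^ (nd k d κ ν).2 * (1 / 2) ^ (κ ^ 2) else 0 := by
      intro j
      have h2 : ∀ b : Fin (2 ^ (j : ℕ)) × (Fin k → Fin (2 ^ (κ ^ 2 + (j : ℕ)))),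
          (if nl d (chd ν (mkIx j b)) = l
          then (1 / 2 : ℝ) ^ (nd k d (κ + 1) (chd ν (mkIx j b))).2 else 0)
          = if lev k d (κ + 1) ((nd k d κ ν).2 + (k + 1) * (κ ^ 2 + (j : ℕ))) = l
            then (1 / 2 : ℝ) ^ (nd k d κ ν).2 * (1 / 2) ^ ((k + 1) * (κ ^ 2 + (j : ℕ))) else 0 := by
        intro b
        have h3 : nl d (chd ν (mkIx j b))
            = lev k d (κ + 1) ((nd k d κ ν).2 + (k + 1) * (κ ^ 2 + (j : ℕ))) := by
          unfold nl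
          rw [nd_succ, tt_mk]
        rw [h3, nd_succ, tt_mk]
        simp only [pow_add]
      rw [Finset.sum_congr rfl (fun b _ => h2 b)]
      split_ifs
      · rw [← Finset.mul_sum, slice_weight]
      · simp
    rw [Finset.sum_congr rfl (fun j _ => h1 j)]
    by_cases hex : ∃ j0 : Fin (2 ^ κ ^ 2), lev k d (κ + 1) ((nd k d κ ν).2 + (k + 1) * (κ ^ 2 + (j0 : ℕ))) = l
    · obtain ⟨j0, hj0⟩ := hex
      rw [Finset.sum_eq_single j0]
      · rw [if_pos hj0]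
      · intro j _ hne
        rw [if_neg]
        intro hj
        rcases lt_trichotomy (j : ℕ) (j0 : ℕ) with h | h | h
        · have := lev_strict hd hdk (κ + 1) (nd k d κ ν).2 (show κ ^ 2 + (j : ℕ) < κ ^ 2 + (j0 : ℕ) by omega)
          omega
        · exact hne (Fin.ext h)
        · have := lev_strict hd hdk (κ + 1) (nd k d κ ν).2 (show κ ^ 2 + (j0 : ℕ) < κ ^ 2 + (j : ℕ) by omega)
          omega
      · intro h; exact absurd (Finset.mem_univ _) h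
    · push Not at hex
      rw [Finset.sum_congr rfl (fun j _ => if_neg (hex j)), Finset.sum_const_zero]
      positivity
  refine (Finset.sum_le_sum (fun ν _ => key ν)).trans ?_
  rw [← Finset.sum_mul, nd_weight, one_mul]

end Pool.Agent.W784.BC
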