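import Pool.Agent.W784.BC.P2

set_option autoImplicit false
open MeasureTheory Set Filter Topology
open scoped ENNReal

/-! Averages over the cubes and telescoping. -/

namespace Pool.Agent.W784.BC

variable {k : ℕ}

theorem cb_meas (z : E k) (r : ℝ) : MeasurableSet (cb z r) := by
  have : cb z r = ⋂ i, {x : E k | z i ≤ x i ∧ x i < z i + r} := by
    ext x; simp [cb]
  rw [this]
  refine MeasurableSet.iInter fun i => ?_
  have h1 : MeasurableSet {x : E k | z i ≤ x i} := measurableSet_le (by fun_prop) (by fun_prop)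
  have h2 : MeasurableSet {x : E k | x i < z i + r} := measurableSet_lt (by fun_prop) (by fun_prop)
  exact h1.inter h2

theorem cb_vol (z : E k) {r : ℝ} (hr : 0 ≤ r) : volume (cb z r) = ENNReal.ofReal (r ^ (k + 1)) := by
  have h := (EuclideanSpace.volume_preserving_symm_measurableEquiv_toLp (Fin (k + 1))).measure_preimage
    (s := Set.pi univ fun i => Ico (z i) (z i + r))
    (MeasurableSet.univ_pi fun i => measurableSet_Ico).nullMeasurableSet
  have h2 : (MeasurableEquiv.toLp 2 (Fin (k + 1) → ℝ)).symm ⁻¹' (Set.pi univ fun i => Ico (z i) (z i + r))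
      = cb z r := by
    ext x
    simp [cb]
  rw [← h2, h, Real.volume_pi_Ico]
  simp only [add_sub_cancel_left, Finset.prod_const, Finset.card_univ, Fintype.card_fin]
  rw [ENNReal.ofReal_pow hr]

theorem cb_bdd {z : E k} {r : ℝ} {x y : E k} (hr : 0 ≤ r) (hx : x ∈ cb z r) (hy : y ∈ cb z r) :
    ‖y - x‖ ≤ ((k:ℝ) + 1) * r := by
  have h1 : ‖y - x‖ ^ 2 ≤ (((k:ℝ) + 1) * r) ^ 2 := by
    rw [EuclideanSpace.norm_sq_eq]
    have h2 : ∀ i ∈ Finset.univ, ‖(y - x) i‖ ^ 2 ≤ r ^ 2 := by
      intro i _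
      have h3 : |(y - x) i| ≤ r := by
        rw [PiLp.sub_apply, abs_le]
        have := hx i
        have := hy i
        constructor <;> linarith
      rw [Real.norm_eq_abs]
      exact pow_le_pow_left₀ (abs_nonneg _) h3 2
    refine (Finset.sum_le_sum h2).trans ?_
    rw [Finset.sum_const, Finset.card_univ, Fintype.card_fin, nsmul_eq_mul]
    push_cast
    have : 0 ≤ (k:ℝ) := Nat.cast_nonneg _
    nlinarith [sq_nonneg r, mul_nonneg this (sq_nonneg r), mul_nonneg (mul_nonneg this this) (sq_nonneg r)]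
  exact le_of_sq_le_sq h1 (by positivity)

theorem cb_fin (z : E k) (r : ℝ) : volume (cb z r) ≠ ⊤ := by
  rcases le_or_gt 0 r with h | h
  · rw [cb_vol z h]; exact ENNReal.ofReal_ne_top
  · have : cb z r = ∅ := by
      ext x
      simp only [cb, mem_ofPred_eq, mem_empty_iff_false, iff_false]
      intro hx
      have := hx 0
      linarith
    rw [this]; simp

/-- average over a dyadic cube -/
noncomputable def av (z : E k) (L : ℕ) (u : E k → ℝ) : ℝ :=
  2 ^ ((k + 1) * L) * ∫ x in cb z (1 / 2 ^ L), u x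

theorem intOn {u : E k → ℝ} (hu : Continuous u) (hb : ∃ C, ∀ x, |u x| ≤ C) (z : E k) (r : ℝ) :
    IntegrableOn u (cb z r) := by
  obtain ⟨C, hC⟩ := hb
  exact Measure.integrableOn_of_bounded (cb_fin z r) hu.aestronglyMeasurable
    (Eventually.of_forall fun x => by simpa using hC x)

theorem av_split {m : ℕ} {u : E k → ℝ} (hu : Continuous u) (hb : ∃ C, ∀ x, |u x| ≤ C) (z : E k) (L : ℕ) :
    av z L u = ∑ c : Ix k m, (1 / 2 : ℝ) ^ ((k + 1) * tt c) * av (zz z L c) (L + tt c) u := by
  have h1 : ∫ x in cb z (1 / 2 ^ L), u x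
      = ∑ c : Ix k m, ∫ x in cb (zz z L c) (1 / 2 ^ (L + tt c)), u x := by
    have h2 : ∀ c : Ix k m, ∫ x in cb (zz z L c) (1 / 2 ^ (L + tt c)), u x
        = ∫ x, (cb (zz z L c) (1 / 2 ^ (L + tt c))).indicator u x := fun c =>
      (integral_indicator (cb_meas _ _)).symm
    rw [← integral_indicator (cb_meas _ _), Finset.sum_congr rfl (fun c _ => h2 c),
      ← integral_finsetSum]
    · congr 1
      funext x
      have h3 := piece_sum (m := m) z L x (u x)
      have e : ∀ S : Set (E k), S.indicator (fun _ => u x) x = S.indicator u x := fun S => by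
        unfold indicator; rfl
      simp only [e] at h3
      exact h3.symm
    · intro c _
      exact (integrable_indicator_iff (cb_meas _ _)).2 (intOn hu hb _ _)
  unfold av
  rw [h1, Finset.mul_sum]
  refine Finset.sum_congr rfl fun c _ => ?_
  rw [← mul_assoc]
  congr 1
  rw [mul_add, pow_add, one_div, inv_pow]
  have : (2:ℝ) ^ ((k + 1) * tt c) ≠ 0 := by positivity
  field_simp

/-- the mean of `u` with respect to the measure of stage `κ` -/
noncomputable def MM (d : ℝ) (κ : ℕ) (u : E k → ℝ) : ℝ :=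
  ∑ ν : Nd k κ, (1 / 2 : ℝ) ^ (nd k d κ ν).2 * av (nd k d κ ν).1 (nl d ν) u

/-- sum over a telescope -/
theorem tele (f : ℕ → ℝ) {a b : ℕ} (h : a ≤ b) : ∑ i ∈ Finset.Ico a b, (f (i + 1) - f i) = f b - f a :=
  Finset.sum_Ico_sub f h

theorem MM_sub {d : ℝ} (hd : 0 < d) (hdk : d ≤ (k:ℝ) + 1) {u : E k → ℝ} (hu : Continuous u)
    (hb : ∃ C, ∀ x, |u x| ≤ C) (κ : ℕ) :
    MM d (κ + 1) u - MM d κ u = ∑ ν : Nd k κ, ∑ c : Ix k (κ ^ 2),
      (1 / 2 : ℝ) ^ (nd k d (κ + 1) (chd ν c)).2 * ∑ i ∈ Finset.Ico (nl d ν + tt c) (nl d (chd ν c)),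
        (av (nd k d (κ + 1) (chd ν c)).1 (i + 1) u - av (nd k d (κ + 1) (chd ν c)).1 i u) := by
  unfold MM
  rw [sum_nd, ← Finset.sum_sub_distrib]
  refine Finset.sum_congr rfl fun ν _ => ?_
  rw [av_split (m := κ ^ 2) hu hb, Finset.mul_sum, ← Finset.sum_sub_distrib]
  refine Finset.sum_congr rfl fun c _ => ?_
  rw [tele (fun i => av (nd k d (κ + 1) (chd ν c)).1 i u) (child_lev hd hdk ν c), nd_succ]
  simp only
  unfold nl
  rw [nd_succ, pow_add]
  ring

/-- difference of the averages over a cube and its corner child -/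
theorem av_diff {u : E k → ℝ} (hu : Continuous u) (hb : ∃ C, ∀ x, |u x| ≤ C) (z : E k) (i : ℕ) :
    ‖av z (i + 1) u - av z i u‖ₑ ≤ ENNReal.ofReal (2 ^ ((k + 1) * (2 * i + 1))) *
      ∫⁻ x in cb z (1 / 2 ^ i), ∫⁻ h in Metric.closedBall (0 : E k) (((k:ℝ) + 1) * (1 / 2 ^ i)),
        ‖u (x + h) - u x‖ₑ := by
  set A := cb z (1 / 2 ^ (i + 1)) with hA
  set B := cb z (1 / 2 ^ i) with hB
  have hAB : A ⊆ B := by
    intro x hx j
    have := hx j
    refine ⟨this.1, this.2.trans_le ?_⟩
    have : (1:ℝ) / 2 ^ (i + 1) ≤ 1 / 2 ^ i :=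
      one_div_le_one_div_of_le (by positivity) (pow_le_pow_right₀ (by norm_num) (Nat.le_succ i))
    linarith
  have hvA : volume.real A = 1 / 2 ^ ((k + 1) * (i + 1)) := by
    rw [measureReal_def, hA, cb_vol z (by positivity), ENNReal.toReal_ofReal (by positivity), div_pow,
      one_pow, ← pow_mul, mul_comm]
  have hvB : volume.real B = 1 / 2 ^ ((k + 1) * i) := by
    rw [measureReal_def, hB, cb_vol z (by positivity), ENNReal.toReal_ofReal (by positivity), div_pow,
      one_pow, ← pow_mul, mul_comm]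
  have hiA : IntegrableOn u A := intOn hu hb _ _
  have hiB : IntegrableOn u B := intOn hu hb _ _
  have hinner : ∀ x, ∫ y in B, (u x - u y) = volume.real B * u x - ∫ y in B, u y := by
    intro x
    have hc : IntegrableOn (fun _ : E k => u x) B := integrableOn_const (cb_fin _ _)
    rw [integral_sub hc hiB, setIntegral_const, smul_eq_mul]
  have e1 : av z (i + 1) u - av z i u = 2 ^ ((k + 1) * (2 * i + 1)) * ∫ x in A, ∫ y in B, (u x - u y) := by
    simp only [hinner]
    have hc : IntegrableOn (fun _ : E k => ∫ y in B, u y) A := integrableOn_const (cb_fin _ _)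
    rw [integral_sub (hiA.const_mul _) hc, integral_const_mul,
      setIntegral_const, hvA, hvB]
    unfold av
    rw [smul_eq_mul, ← hA, ← hB]
    have e2 : (2:ℝ) ^ ((k + 1) * (2 * i + 1)) = 2 ^ ((k + 1) * (i + 1)) * 2 ^ ((k + 1) * i) := by
      rw [← pow_add]; congr 1; ring
    rw [e2]
    field_simp
  rw [e1, enorm_mul, Real.enorm_of_nonneg (by positivity)]
  gcongr
  refine (enorm_integral_le_lintegral_enorm _).trans ?_
  refine le_trans ?_ (lintegral_mono_set hAB)
  refine setLIntegral_mono' (cb_meas _ _) fun x hx => ?_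
  refine (enorm_integral_le_lintegral_enorm _).trans ?_
  rw [← lintegral_indicator (cb_meas _ _), ← lintegral_add_left_eq_self _ x,
    ← lintegral_indicator Metric.isClosed_closedBall.measurableSet]
  apply lintegral_mono
  intro h
  simp only
  by_cases hxh : x + h ∈ B
  · rw [indicator_of_mem hxh, indicator_of_mem]
    · rw [← neg_sub, enorm_neg]
    · rw [mem_closedBall_zero_iff]
      have := cb_bdd (by positivity) (hAB hx) hxh
      rwa [add_sub_cancel_left] at this
  · rw [indicator_of_notMem hxh]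
    exact zero_le

end Pool.Agent.W784.BC
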