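import Pool.Agent.W784.BC.P3

set_option autoImplicit false
open MeasureTheory Set Filter Topology
open scoped ENNReal

/-! The estimate for one block. -/

namespace Pool.Agent.W784.BC

variable {k : ℕ}

/-- powers of two -/
noncomputable def e2 (x : ℝ) : ℝ≥0∞ := (2:ℝ≥0∞) ^ x

theorem e2_add (x y : ℝ) : e2 (x + y) = e2 x * e2 y :=
  ENNReal.rpow_add x y (by norm_num) (by norm_num)

theorem e2_mul (x y : ℝ) : e2 x ^ y = e2 (x * y) := (ENNReal.rpow_mul _ _ _).symm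

theorem e2_zero : e2 0 = 1 := ENNReal.rpow_zero

theorem e2_mono {x y : ℝ} (h : x ≤ y) : e2 x ≤ e2 y :=
  ENNReal.rpow_le_rpow_of_exponent_le (by norm_num) h

theorem e2_ne_top (x : ℝ) : e2 x ≠ ⊤ := by
  unfold e2
  exact ENNReal.rpow_ne_top_of_ne_zero (by norm_num) (by norm_num)

theorem e2_ne_zero (x : ℝ) : e2 x ≠ 0 := by
  unfold e2
  rw [Ne, ENNReal.rpow_eq_zero_iff]
  push Not
  constructor
  · intro h; norm_num at h
  · intro h; norm_num at h

theorem e2_ofReal (x : ℝ) : ENNReal.ofReal ((2:ℝ) ^ x) = e2 x := by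
  unfold e2
  rw [← ENNReal.ofReal_rpow_of_pos (by norm_num)]
  norm_num

theorem e2_pow (m : ℕ) : ENNReal.ofReal ((2:ℝ) ^ m) = e2 m := by
  rw [← e2_ofReal, Real.rpow_natCast]

theorem e2_half (m : ℕ) : ENNReal.ofReal ((1 / 2 : ℝ) ^ m) = e2 (-(m:ℝ)) := by
  rw [← e2_ofReal, Real.rpow_neg (by norm_num), Real.rpow_natCast, one_div, inv_pow]

/-- Hölder with a bounded weight -/
theorem holderW {p : ℝ} (hp : 1 < p) {W f : E k → ℝ≥0∞} (hW : Measurable W) (hf : Measurable f)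
    {B w : ℝ≥0∞} (hB : ∀ x, W x ≤ B) (hBt : B ≠ ⊤) (hw : ∫⁻ x, W x ≤ w) :
    ∫⁻ x, W x * f x ≤ B ^ (1 / p) * w ^ (1 - 1 / p) * (∫⁻ x, f x ^ p) ^ (1 / p) := by
  have hp0 : 0 < p := by linarith
  have hc : (p / (p - 1)).HolderConjugate p := (Real.HolderConjugate.conjExponent hp).symm
  have h1 := ENNReal.lintegral_mul_le_Lp_mul_Lq volume hc hW.aemeasurable hf.aemeasurable
  have h2 : ∫⁻ x, W x ^ (p / (p - 1)) ≤ B ^ (1 / (p - 1)) * w := by
    have hpp : 0 < p - 1 := by linarith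
    have h3 : ∀ x, W x ^ (p / (p - 1)) ≤ B ^ (1 / (p - 1)) * W x := by
      intro x
      have e : p / (p - 1) = 1 / (p - 1) + 1 := by field_simp; ring
      rw [e, ENNReal.rpow_add_of_nonneg _ _ (by positivity) zero_le_one, ENNReal.rpow_one]
      exact mul_le_mul_left (ENNReal.rpow_le_rpow (hB x) (by positivity)) _
    refine (lintegral_mono h3).trans ?_
    rw [lintegral_const_mul _ hW]
    gcongr
  have h4 : (∫⁻ x, W x ^ (p / (p - 1))) ^ (1 / (p / (p - 1))) ≤ B ^ (1 / p) * w ^ (1 - 1 / p) := by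
    have hpp : 0 < p - 1 := by linarith
    refine (ENNReal.rpow_le_rpow h2 (by positivity)).trans ?_
    rw [ENNReal.mul_rpow_of_nonneg _ _ (by positivity), ← ENNReal.rpow_mul]
    have e1 : 1 / (p - 1) * (1 / (p / (p - 1))) = 1 / p := by field_simp
    have e3 : 1 / (p / (p - 1)) = 1 - 1 / p := by field_simp
    rw [e1, e3]
  calc ∫⁻ x, W x * f x ≤ _ := h1
    _ ≤ _ := by gcongr

/-- the averaged differences -/
noncomputable def GG (i : ℕ) (u : E k → ℝ) (x : E k) : ℝ≥0∞ :=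
  ∫⁻ h in Metric.closedBall (0 : E k) (((k:ℝ) + 1) * (1 / 2 ^ i)), ‖u (x + h) - u x‖ₑ

/-- the normalised differences -/
noncomputable def FF (α p : ℝ) (u : E k → ℝ) (h : E k) : ℝ≥0∞ :=
  eLpNorm (fun x => u (x + h) - u x) (ENNReal.ofReal p) volume / ENNReal.ofReal (‖h‖ ^ α)

theorem eLp_eq {p : ℝ} (hp : 1 < p) (f : E k → ℝ) :
    (∫⁻ x, ‖f x‖ₑ ^ p) ^ (1 / p) = eLpNorm f (ENNReal.ofReal p) volume := by
  rw [eLpNorm_eq_lintegral_rpow_enorm_toReal (by simp; linarith) (by simp),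
    ENNReal.toReal_ofReal (by linarith)]

theorem eLp_le {α p : ℝ} (hα : 0 < α) {u : E k → ℝ} {h : E k} {r : ℝ}
    (hh : ‖h‖ ≤ r) : eLpNorm (fun x => u (x + h) - u x) (ENNReal.ofReal p) volume
      ≤ ENNReal.ofReal (r ^ α) * FF α p u h := by
  by_cases h0 : h = 0
  · subst h0
    have : (fun x : E k => u (x + 0) - u x) = fun _ => (0:ℝ) := by funext x; simp
    rw [this]
    simp
  · have hn : 0 < ‖h‖ := norm_pos_iff.2 h0
    unfold FF
    have h1 : ENNReal.ofReal (‖h‖ ^ α) ≤ ENNReal.ofReal (r ^ α) := by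
      apply ENNReal.ofReal_le_ofReal
      exact Real.rpow_le_rpow hn.le hh hα.le
    calc eLpNorm (fun x => u (x + h) - u x) (ENNReal.ofReal p) volume
        = ENNReal.ofReal (‖h‖ ^ α) *
          (eLpNorm (fun x => u (x + h) - u x) (ENNReal.ofReal p) volume / ENNReal.ofReal (‖h‖ ^ α)) := by
          rw [ENNReal.mul_div_cancel]
          · rw [Ne, ENNReal.ofReal_eq_zero, not_le]
            positivity
          · exact ENNReal.ofReal_ne_top
      _ ≤ _ := by gcongr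

theorem GG_meas {u : E k → ℝ} (hu : Continuous u) (i : ℕ) : Measurable (GG i u) := by
  unfold GG
  apply Measurable.lintegral_prod_right'
    (f := fun z : E k × E k => ‖u (z.1 + z.2) - u z.1‖ₑ)
  fun_prop

/-- weighted integrals of the averaged differences -/
theorem W_GG {α p : ℝ} (hα : 0 < α) (hp : 1 < p) {u : E k → ℝ} (hu : Continuous u) {W : E k → ℝ≥0∞}
    (hW : Measurable W) {B w : ℝ≥0∞} (hB : ∀ x, W x ≤ B) (hBt : B ≠ ⊤) (hw : ∫⁻ x, W x ≤ w)
    (hwt : w ≠ ⊤) (i : ℕ) :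
    ∫⁻ x, W x * GG i u x ≤ B ^ (1 / p) * w ^ (1 - 1 / p) *
      (ENNReal.ofReal ((((k:ℝ) + 1) * (1 / 2 ^ i)) ^ α) *
        ∫⁻ h in Metric.closedBall (0 : E k) (((k:ℝ) + 1) * (1 / 2 ^ i)), FF α p u h) := by
  set S := Metric.closedBall (0 : E k) (((k:ℝ) + 1) * (1 / 2 ^ i)) with hS
  have hSm : MeasurableSet S := Metric.isClosed_closedBall.measurableSet
  have hum := hu.measurable
  have h1 : ∫⁻ x, W x * GG i u x = ∫⁻ h in S, ∫⁻ x, W x * ‖u (x + h) - u x‖ₑ := by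
    rw [lintegral_lintegral_swap]
    · apply lintegral_congr
      intro x
      rw [GG, lintegral_const_mul]
      fun_prop
    · apply Measurable.aemeasurable
      fun_prop
  rw [h1]
  have hp1 : 0 < 1 - 1 / p := by
    rw [sub_pos, div_lt_one (by linarith)]; exact hp
  have h2 : ∀ h ∈ S, ∫⁻ x, W x * ‖u (x + h) - u x‖ₑ ≤ B ^ (1 / p) * w ^ (1 - 1 / p) *
      (ENNReal.ofReal ((((k:ℝ) + 1) * (1 / 2 ^ i)) ^ α) * FF α p u h) := by
    intro h hh
    refine (holderW hp hW (by fun_prop) hB hBt hw).trans ?_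
    gcongr
    rw [eLp_eq hp]
    rw [hS, mem_closedBall_zero_iff] at hh
    exact eLp_le hα hh
  refine (setLIntegral_mono' hSm h2).trans ?_
  have htop : B ^ (1 / p) * w ^ (1 - 1 / p) ≠ ⊤ :=
    ENNReal.mul_ne_top (ENNReal.rpow_ne_top_of_nonneg (by positivity) hBt)
      (ENNReal.rpow_ne_top_of_nonneg hp1.le hwt)
  rw [lintegral_const_mul' _ _ htop, lintegral_const_mul' _ _ ENNReal.ofReal_ne_top]

end Pool.Agent.W784.BC
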