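import Pool.Agent.W784.BC.P4

set_option autoImplicit false
open MeasureTheory Set Filter Topology
open scoped ENNReal

/-! The estimate for one block, continued. -/

namespace Pool.Agent.W784.BC

variable {k : ℕ}

/-- mass of a node -/
noncomputable def wn (d : ℝ) {κ : ℕ} (ν : Nd k κ) : ℝ≥0∞ := e2 (-((nd k d κ ν).2 : ℝ))

theorem wn_eq (d : ℝ) {κ : ℕ} (ν : Nd k κ) : ENNReal.ofReal ((1 / 2 : ℝ) ^ (nd k d κ ν).2) = wn d ν :=
  e2_half _

/-- mass of the nodes of level `l` -/
noncomputable def pm (d : ℝ) (κ l : ℕ) : ℝ≥0∞ :=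
  ∑ ν : Nd k κ, if nl d ν = l then wn d ν else 0

theorem pm_le {d : ℝ} (hd : 0 < d) (hdk : d ≤ (k:ℝ) + 1) (κ l : ℕ) :
    pm (k := k) d (κ + 1) l ≤ e2 (-((κ:ℝ) ^ 2)) := by
  have h := level_mass hd hdk κ l
  have h2 := ENNReal.ofReal_le_ofReal h
  rw [e2_half, ENNReal.ofReal_sum_of_nonneg] at h2
  · push_cast at h2
    refine le_trans (le_of_eq ?_) h2
    unfold pm
    refine Finset.sum_congr rfl fun ν _ => ?_
    split_ifs
    · exact (wn_eq d ν).symm
    · simp
  · intro ν _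
    split_ifs <;> positivity

theorem wn_sum (d : ℝ) (κ : ℕ) : ∑ ν : Nd k κ, wn d ν = 1 := by
  have h := nd_weight (k := k) d κ
  have h2 := congrArg ENNReal.ofReal h
  rw [ENNReal.ofReal_sum_of_nonneg (fun ν _ => by positivity)] at h2
  simp only [wn_eq] at h2
  rw [h2]; simp

theorem pm_sum (d : ℝ) (κ g I : ℕ) : ∑ i ∈ Finset.range I, pm (k := k) d κ (i + g) ≤ 1 := by
  classical
  unfold pm
  rw [Finset.sum_comm, ← wn_sum (k := k) d κ]
  refine Finset.sum_le_sum fun ν _ => ?_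
  have h : ∀ i ∈ Finset.range I, (if nl d ν = i + g then wn d ν else 0)
      = if i = nl d ν - g ∧ g ≤ nl d ν then wn d ν else 0 := by
    intro i _
    by_cases h1 : nl d ν = i + g
    · rw [if_pos h1, if_pos]
      omega
    · rw [if_neg h1, if_neg]
      omega
  rw [Finset.sum_congr rfl h]
  by_cases hg : g ≤ nl d ν
  · simp only [hg, and_true]
    rw [Finset.sum_ite_eq' (Finset.range I) (nl d ν - g) (fun _ => wn d ν)]
    split_ifs
    · exact le_rfl
    · exact zero_le
  · simp only [hg, and_false, if_false, Finset.sum_const_zero]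
    exact zero_le

/-- one scale and one gap -/
noncomputable def XX (d : ℝ) (κ i g : ℕ) (u : E k → ℝ) : ℝ≥0∞ :=
  ∑ ν : Nd k κ, ∑ c : Ix k (κ ^ 2), if nl d (chd ν c) = i + g ∧ nl d ν + tt c ≤ i then
    wn d (chd ν c) * ‖av (nd k d (κ + 1) (chd ν c)).1 (i + 1) u
      - av (nd k d (κ + 1) (chd ν c)).1 i u‖ₑ else 0

theorem MM_le_XX {d : ℝ} (hd : 0 < d) (hdk : d ≤ (k:ℝ) + 1) {u : E k → ℝ} (hu : Continuous u)
    (hb : ∃ C, ∀ x, |u x| ≤ C) (κ : ℕ) : ∃ I : ℕ,
    ‖MM d (κ + 1) u - MM d κ u‖ₑ ≤ ∑ g ∈ Finset.range I, ∑ i ∈ Finset.range I, XX d κ i (g + 1) u := by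
  classical
  obtain ⟨I, hI⟩ : ∃ I : ℕ, ∀ ν : Nd k (κ + 1), nl d ν ≤ I := by
    refine ⟨Finset.univ.sup (fun ν : Nd k (κ + 1) => nl d ν), fun ν => ?_⟩
    exact Finset.le_sup (f := fun ν : Nd k (κ + 1) => nl d ν) (Finset.mem_univ ν)
  refine ⟨I, ?_⟩
  rw [MM_sub hd hdk hu hb κ]
  refine (enorm_sum_le _ _).trans ?_
  unfold XX
  have hsw : ∑ g ∈ Finset.range I, ∑ i ∈ Finset.range I, ∑ ν : Nd k κ, ∑ c : Ix k (κ ^ 2),
      (if nl d (chd ν c) = i + (g + 1) ∧ nl d ν + tt c ≤ i then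
        wn d (chd ν c) * ‖av (nd k d (κ + 1) (chd ν c)).1 (i + 1) u
          - av (nd k d (κ + 1) (chd ν c)).1 i u‖ₑ else 0)
      = ∑ ν : Nd k κ, ∑ c : Ix k (κ ^ 2), ∑ i ∈ Finset.range I, ∑ g ∈ Finset.range I,
      (if nl d (chd ν c) = i + (g + 1) ∧ nl d ν + tt c ≤ i then
        wn d (chd ν c) * ‖av (nd k d (κ + 1) (chd ν c)).1 (i + 1) u
          - av (nd k d (κ + 1) (chd ν c)).1 i u‖ₑ else 0) := by
    rw [Finset.sum_comm]
    simp_rw [Finset.sum_comm (s := Finset.range I) (t := (Finset.univ : Finset (Nd k κ)))]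
    refine Finset.sum_congr rfl fun ν _ => ?_
    simp_rw [Finset.sum_comm (s := Finset.range I) (t := (Finset.univ : Finset (Ix k (κ ^ 2))))]
  rw [hsw]
  refine Finset.sum_le_sum fun ν _ => (enorm_sum_le _ _).trans (Finset.sum_le_sum fun c _ => ?_)
  rw [enorm_mul, Real.enorm_of_nonneg (by positivity), wn_eq]
  refine (mul_le_mul_right (enorm_sum_le _ _) _).trans ?_
  rw [Finset.mul_sum]
  set a : ℕ → ℝ≥0∞ := fun i => wn d (chd ν c) * ‖av (nd k d (κ + 1) (chd ν c)).1 (i + 1) u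
          - av (nd k d (κ + 1) (chd ν c)).1 i u‖ₑ with ha
  have h1 : ∀ i ∈ Finset.Ico (nl d ν + tt c) (nl d (chd ν c)),
      a i ≤ ∑ g ∈ Finset.range I,
        (if nl d (chd ν c) = i + (g + 1) ∧ nl d ν + tt c ≤ i then a i else 0) := by
    intro i hi
    rw [Finset.mem_Ico] at hi
    have hI' := hI (chd ν c)
    have h2 : nl d (chd ν c) - i - 1 ∈ Finset.range I := by
      rw [Finset.mem_range]; omega
    refine le_trans (le_of_eq ?_) (Finset.single_le_sum (f := fun g =>
      (if nl d (chd ν c) = i + (g + 1) ∧ nl d ν + tt c ≤ i then a i else 0)) (fun _ _ => zero_le) h2)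
    rw [if_pos]
    omega
  refine (Finset.sum_le_sum h1).trans ?_
  apply Finset.sum_le_sum_of_subset
  intro i hi
  rw [Finset.mem_Ico] at hi
  rw [Finset.mem_range]
  exact hi.2.trans_le (hI _)

/-- averages of the normalised differences -/
noncomputable def om (α p : ℝ) (u : E k → ℝ) (i : ℕ) : ℝ≥0∞ :=
  e2 (((k:ℝ) + 1) * i) * ∫⁻ h in Metric.closedBall (0 : E k) (((k:ℝ) + 1) * (1 / 2 ^ i)), FF α p u h

theorem cb_vol2 (z : E k) (i : ℕ) : volume (cb z (1 / 2 ^ i)) = e2 (-(((k:ℝ) + 1) * i)) := by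
  rw [cb_vol z (by positivity), one_div, ← inv_pow, ← one_div, ← pow_mul, e2_half]
  push_cast
  ring_nf

theorem XX_le {α p d : ℝ} (hα : 0 < α) (hp : 1 < p) (hd : 0 < d) (hdk : d = (k:ℝ) + 1 - α * p)
    {u : E k → ℝ} (hu : Continuous u)
    (hb : ∃ C, ∀ x, |u x| ≤ C) (κ i g : ℕ) :
    XX d κ i (g + 1) u ≤ (e2 ((k:ℝ) + 1) * ENNReal.ofReal (((k:ℝ) + 1) ^ α)) *
      e2 (((k:ℝ) + 1) * (κ + 1) / p) * e2 (-(g * d / p)) *
      (pm (k := k) d (κ + 1) (i + (g + 1)) ^ (1 - 1 / p) * om α p u i) := by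
  classical
  have hp0 : 0 < p := by linarith
  have hdk' : d ≤ (k:ℝ) + 1 := by nlinarith
  set W : E k → ℝ≥0∞ := fun x => ∑ ν : Nd k κ, ∑ c : Ix k (κ ^ 2),
    if nl d (chd ν c) = i + (g + 1) ∧ nl d ν + tt c ≤ i then
      (cb (nd k d (κ + 1) (chd ν c)).1 (1 / 2 ^ i)).indicator (fun _ => wn d (chd ν c)) x else 0 with hW
  have hWm : Measurable W := by
    refine Finset.measurable_sum _ fun ν _ => Finset.measurable_sum _ fun c _ => ?_
    by_cases h : nl d (chd ν c) = i + (g + 1) ∧ nl d ν + tt c ≤ i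
    · simp only [if_pos h]
      exact measurable_const.indicator (cb_meas _ _)
    · simp only [if_neg h]
      exact measurable_const
  -- first step
  have h1 : XX d κ i (g + 1) u ≤ ENNReal.ofReal (2 ^ ((k + 1) * (2 * i + 1))) * ∫⁻ x, W x * GG i u x := by
    have h2 : ∫⁻ x, W x * GG i u x = ∑ ν : Nd k κ, ∑ c : Ix k (κ ^ 2),
        if nl d (chd ν c) = i + (g + 1) ∧ nl d ν + tt c ≤ i then
          wn d (chd ν c) * ∫⁻ x in cb (nd k d (κ + 1) (chd ν c)).1 (1 / 2 ^ i), GG i u x else 0 := by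
      simp only [hW, Finset.sum_mul]
      rw [lintegral_finsetSum]
      · refine Finset.sum_congr rfl fun ν _ => ?_
        rw [lintegral_finsetSum]
        · refine Finset.sum_congr rfl fun c _ => ?_
          by_cases h : nl d (chd ν c) = i + (g + 1) ∧ nl d ν + tt c ≤ i
          · simp only [if_pos h]
            rw [← lintegral_const_mul _ (GG_meas hu i), ← lintegral_indicator (cb_meas _ _)]
            congr 1
            funext x
            by_cases hx : x ∈ cb (nd k d (κ + 1) (chd ν c)).1 (1 / 2 ^ i)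
            · rw [indicator_of_mem hx, indicator_of_mem hx]
            · rw [indicator_of_notMem hx, indicator_of_notMem hx, zero_mul]
          · simp only [if_neg h, zero_mul, lintegral_zero]
        · intro c _
          by_cases h : nl d (chd ν c) = i + (g + 1) ∧ nl d ν + tt c ≤ i
          · simp only [if_pos h]
            exact (measurable_const.indicator (cb_meas _ _)).mul (GG_meas hu i)
          · simp only [if_neg h, zero_mul]
            exact measurable_const
      · intro ν _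
        refine Finset.measurable_sum _ fun c _ => ?_
        by_cases h : nl d (chd ν c) = i + (g + 1) ∧ nl d ν + tt c ≤ i
        · simp only [if_pos h]
          exact (measurable_const.indicator (cb_meas _ _)).mul (GG_meas hu i)
        · simp only [if_neg h, zero_mul]
          exact measurable_const
    rw [h2]
    unfold XX
    rw [Finset.mul_sum]
    refine Finset.sum_le_sum fun ν _ => ?_
    rw [Finset.mul_sum]
    refine Finset.sum_le_sum fun c _ => ?_
    split_ifs with h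
    · have h3 := av_diff hu hb (nd k d (κ + 1) (chd ν c)).1 i
      calc wn d (chd ν c) * ‖av (nd k d (κ + 1) (chd ν c)).1 (i + 1) u
            - av (nd k d (κ + 1) (chd ν c)).1 i u‖ₑ
          ≤ wn d (chd ν c) * (ENNReal.ofReal (2 ^ ((k + 1) * (2 * i + 1))) *
            ∫⁻ x in cb (nd k d (κ + 1) (chd ν c)).1 (1 / 2 ^ i), GG i u x) := by
            gcongr
            exact h3
        _ = _ := by ring
    · simp
  -- bounds of the weight
  have hBw : ∀ ν : Nd k κ, ∀ c : Ix k (κ ^ 2), nl d (chd ν c) = i + (g + 1) →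
      wn d (chd ν c) ≤ e2 (((k:ℝ) + 1) * (κ + 1) - (i + g) * d) := by
    intro ν c hl
    unfold wn
    apply e2_mono
    have h4 := lev_lt (k := k) hd (κ + 1) (nd k d (κ + 1) (chd ν c)).2
    have h5 : lev k d (κ + 1) (nd k d (κ + 1) (chd ν c)).2 = i + (g + 1) := hl
    rw [h5] at h4
    push_cast at h4
    have h6 : (((i:ℝ) + (g + 1)) - 1) * d = (i + g) * d := by ring
    rw [h6] at h4
    linarith
  have hWB : ∀ x, W x ≤ e2 (((k:ℝ) + 1) * (κ + 1) - (i + g) * d) := by
    intro x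
    have h7 : W x ≤ e2 (((k:ℝ) + 1) * (κ + 1) - (i + g) * d) *
        ∑ ν : Nd k κ, (nc d ν).indicator (fun _ => (1:ℝ≥0∞)) x := by
      rw [Finset.mul_sum]
      refine Finset.sum_le_sum fun ν _ => ?_
      rw [show (nc d ν).indicator (fun _ => (1:ℝ≥0∞)) x = _ from
        (piece_sum (m := κ ^ 2) (nd k d κ ν).1 (nl d ν) x (1:ℝ≥0∞)).symm, Finset.mul_sum]
      refine Finset.sum_le_sum fun c _ => ?_
      split_ifs with h
      · by_cases hx : x ∈ cb (nd k d (κ + 1) (chd ν c)).1 (1 / 2 ^ i)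
        · rw [indicator_of_mem hx]
          have hx2 : x ∈ cb (zz (nd k d κ ν).1 (nl d ν) c) (1 / 2 ^ (nl d ν + tt c)) := by
            intro j
            have h8 := hx j
            rw [nd_succ] at h8
            refine ⟨h8.1, h8.2.trans_le ?_⟩
            have : (1:ℝ) / 2 ^ i ≤ 1 / 2 ^ (nl d ν + tt c) :=
              one_div_le_one_div_of_le (by positivity) (pow_le_pow_right₀ (by norm_num) h.2)
            show (zz (nd k d κ ν).1 (nl d ν) c) j + 1 / 2 ^ i ≤ _
            linarith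
          rw [indicator_of_mem hx2, mul_one]
          exact hBw ν c h.1
        · rw [indicator_of_notMem hx]
          exact zero_le
      · exact zero_le
    refine h7.trans ?_
    have h9 := nd_disj hd hdk' κ x
    calc _ ≤ e2 (((k:ℝ) + 1) * (κ + 1) - (i + g) * d) * 1 := by gcongr
      _ = _ := mul_one _
  have hWi : ∫⁻ x, W x ≤ e2 (-(((k:ℝ) + 1) * i)) * pm (k := k) d (κ + 1) (i + (g + 1)) := by
    unfold pm
    rw [sum_nd, Finset.mul_sum]
    simp only [hW]
    rw [lintegral_finsetSum]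
    · refine Finset.sum_le_sum fun ν _ => ?_
      rw [lintegral_finsetSum, Finset.mul_sum]
      · refine Finset.sum_le_sum fun c _ => ?_
        by_cases h : nl d (chd ν c) = i + (g + 1) ∧ nl d ν + tt c ≤ i
        · simp only [if_pos h, if_pos h.1]
          rw [lintegral_indicator_const (cb_meas _ _), cb_vol2, mul_comm]
        · simp only [if_neg h, lintegral_zero]
          exact zero_le
      · intro c _
        by_cases h : nl d (chd ν c) = i + (g + 1) ∧ nl d ν + tt c ≤ i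
        · simp only [if_pos h]
          exact measurable_const.indicator (cb_meas _ _)
        · simp only [if_neg h]
          exact measurable_const
    · intro ν _
      refine Finset.measurable_sum _ fun c _ => ?_
      by_cases h : nl d (chd ν c) = i + (g + 1) ∧ nl d ν + tt c ≤ i
      · simp only [if_pos h]
        exact measurable_const.indicator (cb_meas _ _)
      · simp only [if_neg h]
        exact measurable_const
  have hpmt : pm (k := k) d (κ + 1) (i + (g + 1)) ≠ ⊤ :=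
    ne_top_of_le_ne_top (e2_ne_top _) (pm_le hd hdk' κ _)
  have h10 := W_GG hα hp hu hWm hWB (e2_ne_top _) hWi (ENNReal.mul_ne_top (e2_ne_top _) hpmt) i
  refine h1.trans ((mul_le_mul_right h10 _).trans (le_of_eq ?_))
  have hp1 : 0 ≤ 1 - 1 / p := by
    rw [sub_nonneg, div_le_one hp0]; exact hp.le
  rw [e2_mul, ENNReal.mul_rpow_of_nonneg _ _ hp1, e2_mul, e2_pow]
  have h11 : ENNReal.ofReal ((((k:ℝ) + 1) * (1 / 2 ^ i)) ^ α)
      = ENNReal.ofReal (((k:ℝ) + 1) ^ α) * e2 (-(i * α)) := by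
    rw [Real.mul_rpow (by positivity) (by positivity), ENNReal.ofReal_mul (by positivity), ← e2_ofReal]
    congr 2
    rw [one_div, Real.inv_rpow (by positivity), ← Real.rpow_natCast, ← Real.rpow_mul (by norm_num),
      Real.rpow_neg (by norm_num)]
  rw [h11]
  unfold om
  set Y := ∫⁻ h in Metric.closedBall (0 : E k) (((k:ℝ) + 1) * (1 / 2 ^ i)), FF α p u h
  set A := ENNReal.ofReal (((k:ℝ) + 1) ^ α)
  set P := pm (k := k) d (κ + 1) (i + (g + 1)) ^ (1 - 1 / p)
  have e1 : e2 (((k + 1) * (2 * i + 1) : ℕ)) * (e2 ((((k:ℝ) + 1) * (κ + 1) - (i + g) * d) * (1 / p)) *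
      (e2 (-(((k:ℝ) + 1) * i) * (1 - 1 / p)) * P) * (A * e2 (-(i * α)) * Y))
      = (e2 (((k + 1) * (2 * i + 1) : ℕ)) * e2 ((((k:ℝ) + 1) * (κ + 1) - (i + g) * d) * (1 / p)) *
      e2 (-(((k:ℝ) + 1) * i) * (1 - 1 / p)) * e2 (-(i * α))) * (P * A * Y) := by ring
  have e3 : e2 ((k:ℝ) + 1) * A * e2 (((k:ℝ) + 1) * (κ + 1) / p) * e2 (-(g * d / p)) *
      (P * (e2 (((k:ℝ) + 1) * i) * Y))
      = (e2 ((k:ℝ) + 1) * e2 (((k:ℝ) + 1) * (κ + 1) / p) * e2 (-(g * d / p)) *
      e2 (((k:ℝ) + 1) * i)) * (P * A * Y) := by ring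
  rw [e1, e3]
  congr 1
  rw [← e2_add, ← e2_add, ← e2_add, ← e2_add, ← e2_add, ← e2_add]
  congr 1
  push_cast
  rw [hdk]
  field_simp
  ring

end Pool.Agent.W784.BC
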