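import Pool.Agent.W784.BC.P5

set_option autoImplicit false
open MeasureTheory Set Filter Topology
open scoped ENNReal

/-! Summation over the scales. -/

namespace Pool.Agent.W784.BC

variable {k : ℕ}

theorem holder_pm {p q d : ℝ} (hq : 1 ≤ q) (hqp : q < p) (hd : 0 < d) (hdk : d ≤ (k:ℝ) + 1)
    (κ g I : ℕ) (ω : ℕ → ℝ≥0∞) :
    ∑ i ∈ Finset.range I, pm (k := k) d (κ + 1) (i + g) ^ (1 - 1 / p) * ω i
      ≤ e2 (-((κ:ℝ) ^ 2) * (1 / q - 1 / p)) * (∑ i ∈ Finset.range I, ω i ^ q) ^ (1 / q) := by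
  have hp : 1 < p := hq.trans_lt hqp
  have hp0 : 0 < p := by linarith
  have hp1 : 0 < 1 - 1 / p := by rw [sub_pos, div_lt_one hp0]; exact hp
  rcases eq_or_lt_of_le hq with h1 | h1
  · subst h1
    simp only [ENNReal.rpow_one, div_one]
    rw [Finset.mul_sum]
    refine Finset.sum_le_sum fun i _ => ?_
    gcongr
    calc pm (k := k) d (κ + 1) (i + g) ^ (1 - 1 / p) ≤ (e2 (-((κ:ℝ) ^ 2))) ^ (1 - 1 / p) := by
          apply ENNReal.rpow_le_rpow (pm_le hd hdk κ _) hp1.le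
      _ = _ := by rw [e2_mul]
  · have hq0 : 0 < q := by linarith
    have hqq : 0 < q - 1 := by linarith
    have hc : (q / (q - 1)).HolderConjugate q := (Real.HolderConjugate.conjExponent h1).symm
    refine (ENNReal.inner_le_Lp_mul_Lq (Finset.range I) _ _ hc).trans ?_
    gcongr
    have hs : 0 ≤ (1 - 1 / p) * (q / (q - 1)) - 1 := by
      have e : (1 - 1 / p) * (q / (q - 1)) - 1 = (1 / q - 1 / p) * (q / (q - 1)) := by
        field_simp
        ring
      rw [e]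
      have : 1 / p < 1 / q := one_div_lt_one_div_of_lt hq0 hqp
      have h2 : 0 < 1 / q - 1 / p := by linarith
      positivity
    have h2 : ∑ i ∈ Finset.range I, (pm (k := k) d (κ + 1) (i + g) ^ (1 - 1 / p)) ^ (q / (q - 1))
        ≤ e2 (-((κ:ℝ) ^ 2) * ((1 - 1 / p) * (q / (q - 1)) - 1)) := by
      calc ∑ i ∈ Finset.range I, (pm (k := k) d (κ + 1) (i + g) ^ (1 - 1 / p)) ^ (q / (q - 1))
          ≤ ∑ i ∈ Finset.range I, e2 (-((κ:ℝ) ^ 2) * ((1 - 1 / p) * (q / (q - 1)) - 1)) *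
              pm (k := k) d (κ + 1) (i + g) := by
            refine Finset.sum_le_sum fun i _ => ?_
            rw [← ENNReal.rpow_mul]
            have e : (1 - 1 / p) * (q / (q - 1)) = ((1 - 1 / p) * (q / (q - 1)) - 1) + 1 := by ring
            nth_rw 1 [e]
            rw [ENNReal.rpow_add_of_nonneg _ _ hs zero_le_one, ENNReal.rpow_one, ← e2_mul]
            gcongr
            exact pm_le hd hdk κ _
        _ = e2 (-((κ:ℝ) ^ 2) * ((1 - 1 / p) * (q / (q - 1)) - 1)) *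
              ∑ i ∈ Finset.range I, pm (k := k) d (κ + 1) (i + g) := by rw [Finset.mul_sum]
        _ ≤ e2 (-((κ:ℝ) ^ 2) * ((1 - 1 / p) * (q / (q - 1)) - 1)) * 1 := by
            gcongr
            exact pm_sum d (κ + 1) g I
        _ = _ := mul_one _
    refine (ENNReal.rpow_le_rpow h2 (by positivity)).trans (le_of_eq ?_)
    rw [e2_mul]
    congr 1
    field_simp
    ring

theorem jensen {S : Set (E k)} (hS : MeasurableSet S) {F : E k → ℝ≥0∞} (hF : AEMeasurable F)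
    {q : ℝ} (hq : 1 ≤ q) :
    (∫⁻ h in S, F h) ^ q ≤ volume S ^ (q - 1) * ∫⁻ h in S, F h ^ q := by
  rcases eq_or_lt_of_le hq with h1 | h1
  · subst h1; simp
  · have hq0 : 0 < q := by linarith
    have hqq : 0 < q - 1 := by linarith
    have hc : q.HolderConjugate (q / (q - 1)) := Real.HolderConjugate.conjExponent h1
    have h2 := ENNReal.lintegral_mul_le_Lp_mul_Lq (volume.restrict S) hc hF.restrict
      (aemeasurable_const (b := (1:ℝ≥0∞)))
    have h3 : ∫⁻ h in S, F h = ∫⁻ a in S, (F * (fun _ : E k => (1:ℝ≥0∞)) : E k → ℝ≥0∞) a := by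
      congr 1; funext a; simp
    rw [h3]
    refine (ENNReal.rpow_le_rpow h2 hq0.le).trans ?_
    rw [ENNReal.mul_rpow_of_nonneg _ _ hq0.le, ← ENNReal.rpow_mul, ← ENNReal.rpow_mul]
    simp only [ENNReal.one_rpow, lintegral_const, Measure.restrict_apply_univ, one_mul]
    have e1 : 1 / q * q = 1 := by field_simp
    have e3 : 1 / (q / (q - 1)) * q = q - 1 := by field_simp
    rw [e1, e3, ENNReal.rpow_one, mul_comm]

theorem geo_sum {a : ℝ} (ha : 2 ≤ a) (I : ℕ) : ∑ i ∈ Finset.range (I + 1), a ^ i ≤ 2 * a ^ I := by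
  induction I with
  | zero => simp
  | succ I ih =>
    rw [Finset.sum_range_succ]
    have : 0 < a ^ I := by positivity
    calc _ ≤ 2 * a ^ I + a ^ (I + 1) := by linarith
      _ ≤ 2 * a ^ (I + 1) := by rw [pow_succ]; nlinarith

theorem scale_sum {t : ℝ} (ht : 0 < t) (I : ℕ) :
    ∑ i ∈ Finset.range I, (if t ≤ ((k:ℝ) + 1) * (1 / 2 ^ i) then (2:ℝ) ^ ((k + 1) * i) else 0)
      ≤ 2 * ((k:ℝ) + 1) ^ (k + 1) / t ^ (k + 1) := by
  induction I with
  | zero => simp; positivity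
  | succ I ih =>
    by_cases h : t ≤ ((k:ℝ) + 1) * (1 / 2 ^ I)
    · have h1 : ∑ i ∈ Finset.range (I + 1), (if t ≤ ((k:ℝ) + 1) * (1 / 2 ^ i) then (2:ℝ) ^ ((k + 1) * i) else 0)
          ≤ ∑ i ∈ Finset.range (I + 1), ((2:ℝ) ^ (k + 1)) ^ i := by
        refine Finset.sum_le_sum fun i _ => ?_
        rw [← pow_mul]
        split_ifs
        · exact le_rfl
        · positivity
      have h2 : (2:ℝ) ≤ 2 ^ (k + 1) := by
        calc (2:ℝ) = 2 ^ 1 := (pow_one 2).symm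
          _ ≤ 2 ^ (k + 1) := pow_le_pow_right₀ (by norm_num) (by omega)
      refine h1.trans ((geo_sum h2 I).trans ?_)
      rw [mul_div_assoc, ← div_pow, ← pow_mul, mul_comm (k + 1) I, pow_mul]
      gcongr
      rw [le_div_iff₀ ht]
      have h3 : (0:ℝ) < 2 ^ I := by positivity
      have h4 : t * 2 ^ I ≤ (k:ℝ) + 1 := by
        have := mul_le_mul_of_nonneg_right h h3.le
        rwa [mul_assoc, one_div, inv_mul_cancel₀ h3.ne', mul_one] at this
      linarith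
    · rw [Finset.sum_range_succ, if_neg h, add_zero]
      exact ih

theorem FF_meas (α p : ℝ) (hp : 1 < p) {u : E k → ℝ} (hu : Continuous u) : Measurable (FF α p u) := by
  have hum := hu.measurable
  unfold FF
  have h1 : (fun h : E k => eLpNorm (fun x => u (x + h) - u x) (ENNReal.ofReal p) volume)
      = fun h => (∫⁻ x, ‖u (x + h) - u x‖ₑ ^ p) ^ (1 / p) := by
    funext h; rw [eLp_eq hp]
  have hm : Measurable (fun h : E k => (∫⁻ x, ‖u (x + h) - u x‖ₑ ^ p) ^ (1 / p)) := by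
    apply Measurable.pow_const
    apply Measurable.lintegral_prod_right'
      (f := fun z : E k × E k => ‖u (z.2 + z.1) - u z.2‖ₑ ^ p)
    fun_prop
  rw [← h1] at hm
  apply Measurable.div hm
  fun_prop

/-- the constant -/
noncomputable def CQ (k : ℕ) (q : ℝ) : ℝ≥0∞ :=
  (ENNReal.ofReal (((k:ℝ) + 1) ^ (k + 1)) * volume (Metric.ball (0 : E k) 1)) ^ (q - 1) *
    ENNReal.ofReal (2 * ((k:ℝ) + 1) ^ (k + 1))

theorem CQ_ne_top {q : ℝ} (hq : 1 ≤ q) : CQ k q ≠ ⊤ := by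
  unfold CQ
  refine ENNReal.mul_ne_top (ENNReal.rpow_ne_top_of_nonneg (by linarith)
    (ENNReal.mul_ne_top ENNReal.ofReal_ne_top measure_ball_lt_top.ne)) ENNReal.ofReal_ne_top

theorem om_sum {α p q : ℝ} (hp : 1 < p) (hq : 1 ≤ q) {u : E k → ℝ} (hu : Continuous u) (I : ℕ) :
    ∑ i ∈ Finset.range I, om α p u i ^ q ≤ CQ k q *
      ∫⁻ h, FF α p u h ^ q / ENNReal.ofReal (‖h‖ ^ (k + 1)) := by
  have hq0 : 0 < q := by linarith
  set D0 := ENNReal.ofReal (((k:ℝ) + 1) ^ (k + 1)) * volume (Metric.ball (0 : E k) 1) with hD0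
  have hFm := FF_meas α p hp hu
  set S : ℕ → Set (E k) := fun i => Metric.closedBall (0 : E k) (((k:ℝ) + 1) * (1 / 2 ^ i)) with hS
  have hSm : ∀ i, MeasurableSet (S i) := fun i => Metric.isClosed_closedBall.measurableSet
  have hvol : ∀ i, volume (S i) = D0 * e2 (-(((k:ℝ) + 1) * i)) := by
    intro i
    rw [hS, hD0]
    simp only
    rw [Measure.addHaar_closedBall _ _ (by positivity)]
    have hfr : Module.finrank ℝ (E k) = k + 1 := by simp
    rw [hfr, mul_pow, ENNReal.ofReal_mul (by positivity), one_div, inv_pow, ← inv_pow, ← inv_pow,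
      ← one_div, ← pow_mul, e2_half]
    push_cast
    rw [mul_comm (i:ℝ) ((k:ℝ) + 1)]
    ring
  have h1 : ∀ i, om α p u i ^ q ≤ D0 ^ (q - 1) * (e2 (((k:ℝ) + 1) * i) * ∫⁻ h in S i, FF α p u h ^ q) := by
    intro i
    unfold om
    rw [ENNReal.mul_rpow_of_nonneg _ _ hq0.le, e2_mul]
    refine (mul_le_mul_right (jensen (hSm i) hFm.aemeasurable hq) _).trans (le_of_eq ?_)
    rw [hvol, ENNReal.mul_rpow_of_nonneg _ _ (by linarith), e2_mul]
    have e1 : e2 (((k:ℝ) + 1) * i * q) * (D0 ^ (q - 1) * e2 (-(((k:ℝ) + 1) * i) * (q - 1)) *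
        ∫⁻ h in S i, FF α p u h ^ q)
        = (e2 (((k:ℝ) + 1) * i * q) * e2 (-(((k:ℝ) + 1) * i) * (q - 1))) * (D0 ^ (q - 1) *
          ∫⁻ h in S i, FF α p u h ^ q) := by ring
    rw [e1, ← e2_add]
    have e3 : ((k:ℝ) + 1) * i * q + -(((k:ℝ) + 1) * i) * (q - 1) = ((k:ℝ) + 1) * i := by ring
    rw [e3]
    ring
  refine (Finset.sum_le_sum fun i _ => h1 i).trans ?_
  rw [← Finset.mul_sum]
  unfold CQ
  rw [← hD0, mul_assoc]
  gcongr
  have h2 : ∑ i ∈ Finset.range I, e2 (((k:ℝ) + 1) * i) * ∫⁻ h in S i, FF α p u h ^ q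
      = ∫⁻ h, ∑ i ∈ Finset.range I, e2 (((k:ℝ) + 1) * i) * (S i).indicator (fun h => FF α p u h ^ q) h := by
    rw [lintegral_finsetSum]
    · refine Finset.sum_congr rfl fun i _ => ?_
      rw [lintegral_const_mul _ ((hFm.pow_const q).indicator (hSm i)), lintegral_indicator (hSm i)]
    · intro i _
      exact ((hFm.pow_const q).indicator (hSm i)).const_mul _
  rw [h2, ← lintegral_const_mul' _ _ ENNReal.ofReal_ne_top]
  have hne : ∀ᵐ h : E k, h ≠ 0 := by simp [ae_iff]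
  apply lintegral_mono_ae
  filter_upwards [hne] with h hh
  have hn : 0 < ‖h‖ := norm_pos_iff.2 hh
  have h3 : ∑ i ∈ Finset.range I, e2 (((k:ℝ) + 1) * i) * (S i).indicator (fun h => FF α p u h ^ q) h
      = ENNReal.ofReal (∑ i ∈ Finset.range I,
        (if ‖h‖ ≤ ((k:ℝ) + 1) * (1 / 2 ^ i) then (2:ℝ) ^ ((k + 1) * i) else 0)) * FF α p u h ^ q := by
    rw [ENNReal.ofReal_sum_of_nonneg (fun i _ => by split_ifs <;> positivity), Finset.sum_mul]
    refine Finset.sum_congr rfl fun i _ => ?_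
    by_cases hi : ‖h‖ ≤ ((k:ℝ) + 1) * (1 / 2 ^ i)
    · rw [if_pos hi, indicator_of_mem (mem_closedBall_zero_iff.2 hi), e2_pow]
      push_cast
      rfl
    · rw [if_neg hi, indicator_of_notMem]
      · simp
      · intro hc
        exact hi (mem_closedBall_zero_iff.1 hc)
  rw [h3]
  have h4 := ENNReal.ofReal_le_ofReal (scale_sum (k := k) hn I)
  refine (mul_le_mul_left h4 _).trans (le_of_eq ?_)
  rw [ENNReal.ofReal_div_of_pos (by positivity), ENNReal.div_eq_inv_mul, ENNReal.div_eq_inv_mul]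
  ring

/-- one block -/
theorem block {α p q d : ℝ} (hα : 0 < α) (hq : 1 ≤ q) (hqp : q < p) (hd : 0 < d)
    (hdk : d = (k:ℝ) + 1 - α * p) {u : E k → ℝ} (hu : Continuous u) (hb : ∃ C, ∀ x, |u x| ≤ C) (κ : ℕ) :
    ‖MM d (κ + 1) u - MM d κ u‖ₑ ≤ (e2 ((k:ℝ) + 1) * ENNReal.ofReal (((k:ℝ) + 1) ^ α)) *
      (1 - e2 (-(d / p)))⁻¹ * CQ k q ^ (1 / q) *
      (e2 (((k:ℝ) + 1) * (κ + 1) / p) * e2 (-((κ:ℝ) ^ 2) * (1 / q - 1 / p))) *
      (∫⁻ h, FF α p u h ^ q / ENNReal.ofReal (‖h‖ ^ (k + 1))) ^ (1 / q) := by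
  have hp : 1 < p := hq.trans_lt hqp
  have hp0 : 0 < p := by linarith
  have hq0 : 0 < q := by linarith
  have hdk' : d ≤ (k:ℝ) + 1 := by nlinarith
  obtain ⟨I, hI⟩ := MM_le_XX hd hdk' hu hb κ
  refine hI.trans ?_
  set S := ∫⁻ h, FF α p u h ^ q / ENNReal.ofReal (‖h‖ ^ (k + 1)) with hS
  set C0 := e2 ((k:ℝ) + 1) * ENNReal.ofReal (((k:ℝ) + 1) ^ α) with hC0
  have h1 : ∀ g, ∑ i ∈ Finset.range I, XX d κ i (g + 1) u ≤
      C0 * e2 (((k:ℝ) + 1) * (κ + 1) / p) * e2 (-(g * d / p)) *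
        (e2 (-((κ:ℝ) ^ 2) * (1 / q - 1 / p)) * (CQ k q * S) ^ (1 / q)) := by
    intro g
    calc ∑ i ∈ Finset.range I, XX d κ i (g + 1) u
        ≤ ∑ i ∈ Finset.range I, C0 * e2 (((k:ℝ) + 1) * (κ + 1) / p) * e2 (-(g * d / p)) *
          (pm (k := k) d (κ + 1) (i + (g + 1)) ^ (1 - 1 / p) * om α p u i) :=
          Finset.sum_le_sum fun i _ => XX_le hα hp hd hdk hu hb κ i g
      _ = C0 * e2 (((k:ℝ) + 1) * (κ + 1) / p) * e2 (-(g * d / p)) * ∑ i ∈ Finset.range I,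
          (pm (k := k) d (κ + 1) (i + (g + 1)) ^ (1 - 1 / p) * om α p u i) := by rw [Finset.mul_sum]
      _ ≤ C0 * e2 (((k:ℝ) + 1) * (κ + 1) / p) * e2 (-(g * d / p)) *
          (e2 (-((κ:ℝ) ^ 2) * (1 / q - 1 / p)) * (∑ i ∈ Finset.range I, om α p u i ^ q) ^ (1 / q)) := by
          gcongr
          exact holder_pm hq hqp hd hdk' κ (g + 1) I _
      _ ≤ _ := by
          gcongr
          exact om_sum hp hq hu I
  refine (Finset.sum_le_sum fun g _ => h1 g).trans ?_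
  have h2 : ∑ g ∈ Finset.range I, e2 (-((g:ℝ) * d / p)) ≤ (1 - e2 (-(d / p)))⁻¹ := by
    have : ∀ g : ℕ, e2 (-((g:ℝ) * d / p)) = e2 (-(d / p)) ^ g := by
      intro g
      rw [← ENNReal.rpow_natCast, e2_mul]
      congr 1
      ring
    simp only [this]
    rw [← ENNReal.tsum_geometric]
    exact ENNReal.sum_le_tsum _
  rw [ENNReal.mul_rpow_of_nonneg _ _ (by positivity)]
  calc ∑ g ∈ Finset.range I, C0 * e2 (((k:ℝ) + 1) * (κ + 1) / p) * e2 (-(g * d / p)) *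
        (e2 (-((κ:ℝ) ^ 2) * (1 / q - 1 / p)) * (CQ k q ^ (1 / q) * S ^ (1 / q)))
      = C0 * e2 (((k:ℝ) + 1) * (κ + 1) / p) * (e2 (-((κ:ℝ) ^ 2) * (1 / q - 1 / p)) *
        (CQ k q ^ (1 / q) * S ^ (1 / q))) * ∑ g ∈ Finset.range I, e2 (-(g * d / p)) := by
        rw [Finset.mul_sum]
        refine Finset.sum_congr rfl fun g _ => ?_
        ring
    _ ≤ C0 * e2 (((k:ℝ) + 1) * (κ + 1) / p) * (e2 (-((κ:ℝ) ^ 2) * (1 / q - 1 / p)) *
        (CQ k q ^ (1 / q) * S ^ (1 / q))) * (1 - e2 (-(d / p)))⁻¹ := by gcongr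
    _ = _ := by ring

end Pool.Agent.W784.BC
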