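import Pool.Agent.W784.BC.P6

set_option autoImplicit false
open MeasureTheory Set Filter Topology
open scoped ENNReal ContDiff

/-! The uniform bound for the means. -/

namespace Pool.Agent.W784.BC

variable {k : ℕ}

theorem e2_lt_one {x : ℝ} (hx : x < 0) : e2 x < 1 := by
  unfold e2
  exact ENNReal.rpow_lt_one_of_one_lt_of_neg (by norm_num) hx

theorem geo_ne_top {x : ℝ} (hx : x < 0) : (1 - e2 x)⁻¹ ≠ ⊤ := by
  rw [Ne, ENNReal.inv_eq_top, tsub_eq_zero_iff_le, not_le]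
  exact e2_lt_one hx

theorem MM_zero (d : ℝ) (u : E k → ℝ) : MM d 0 u = ∫ x in cb (0 : E k) 1, u x := by
  unfold MM
  have h : ∀ ν : Nd k 0, (1 / 2 : ℝ) ^ (nd k d 0 ν).2 * av (nd k d 0 ν).1 (nl d ν) u
      = ∫ x in cb (0 : E k) 1, u x := by
    intro ν
    unfold nl av
    rw [nd_zero]
    simp only [lev_zero]
    simp
  rw [Finset.sum_congr rfl (fun ν _ => h ν), Finset.sum_const]
  have : (Finset.univ : Finset (Nd k 0)).card = 1 := rfl
  rw [this, one_smul]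

theorem MM_zero_le {p : ℝ} (hp : 1 < p) (d : ℝ) {u : E k → ℝ} (hu : Continuous u) :
    ‖MM d 0 u‖ₑ ≤ eLpNorm u (ENNReal.ofReal p) volume := by
  have hp0 : 0 < p := by linarith
  rw [MM_zero, ← eLp_eq hp]
  refine (enorm_integral_le_lintegral_enorm _).trans ?_
  have h := jensen (cb_meas (0 : E k) 1) (F := fun x => ‖u x‖ₑ) hu.measurable.enorm.aemeasurable hp.le
  have hv : volume (cb (0 : E k) 1) = 1 := by rw [cb_vol _ zero_le_one]; simp
  rw [hv, ENNReal.one_rpow, one_mul] at h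
  have h2 : (∫⁻ x in cb (0 : E k) 1, ‖u x‖ₑ) ^ p ≤ ∫⁻ x, ‖u x‖ₑ ^ p :=
    h.trans (setLIntegral_le_lintegral _ _)
  have h3 := ENNReal.rpow_le_rpow h2 (show 0 ≤ 1 / p by positivity)
  rwa [← ENNReal.rpow_mul, mul_one_div_cancel hp0.ne', ENNReal.rpow_one] at h3

theorem MM_bound {α p q d : ℝ} (hα : 0 < α) (hq : 1 ≤ q) (hqp : q < p) (hd : 0 < d)
    (hdk : d = (k:ℝ) + 1 - α * p) : ∃ C : ℝ≥0∞, C ≠ ⊤ ∧ ∀ u : E k → ℝ, Continuous u →
      (∃ B, ∀ x, |u x| ≤ B) → ∀ κ, ‖MM d κ u‖ₑ ≤ C * besovNorm (k + 1) α p q u := by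
  have hp : 1 < p := hq.trans_lt hqp
  have hp0 : 0 < p := by linarith
  have hq0 : 0 < q := by linarith
  set δ := 1 / q - 1 / p with hδ
  have hδ0 : 0 < δ := by
    have : 1 / p < 1 / q := one_div_lt_one_div_of_lt hq0 hqp
    linarith
  set a := ((k:ℝ) + 1) / p with ha
  set A := a + (a + 1) ^ 2 / (4 * δ) with hA
  set C1 : ℝ≥0∞ := (e2 ((k:ℝ) + 1) * ENNReal.ofReal (((k:ℝ) + 1) ^ α)) *
      (1 - e2 (-(d / p)))⁻¹ * CQ k q ^ (1 / q) with hC1
  have hC1' : C1 ≠ ⊤ := by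
    refine ENNReal.mul_ne_top (ENNReal.mul_ne_top (ENNReal.mul_ne_top (e2_ne_top _)
      ENNReal.ofReal_ne_top) (geo_ne_top ?_)) (ENNReal.rpow_ne_top_of_nonneg (by positivity)
      (CQ_ne_top hq))
    have : 0 < d / p := by positivity
    linarith
  refine ⟨1 + C1 * (e2 A * (1 - e2 (-1))⁻¹), ?_, ?_⟩
  · refine ENNReal.add_ne_top.2 ⟨ENNReal.one_ne_top, ENNReal.mul_ne_top hC1'
      (ENNReal.mul_ne_top (e2_ne_top _) (geo_ne_top (by norm_num)))⟩
  intro u hu hb κ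
  set S := ∫⁻ h, FF α p u h ^ q / ENNReal.ofReal (‖h‖ ^ (k + 1)) with hS
  have hnorm : besovNorm (k + 1) α p q u = eLpNorm u (ENNReal.ofReal p) volume + S ^ (1 / q) := rfl
  have hblock : ∀ j : ℕ, ‖MM d (j + 1) u - MM d j u‖ₑ ≤ C1 * (e2 A * e2 (-1) ^ j) * S ^ (1 / q) := by
    intro j
    refine (block hα hq hqp hd hdk hu hb j).trans ?_
    rw [← hS, ← hC1]
    suffices hs : e2 (((k:ℝ) + 1) * (j + 1) / p) * e2 (-((j:ℝ) ^ 2) * (1 / q - 1 / p)) ≤
        e2 A * e2 (-1) ^ j from mul_le_mul_left (mul_le_mul_right hs _) _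
    rw [← ENNReal.rpow_natCast, e2_mul, ← e2_add, ← e2_add]
    apply e2_mono
    have h1 : (a + 1) * j - δ * (j:ℝ) ^ 2 ≤ (a + 1) ^ 2 / (4 * δ) := by
      rw [le_div_iff₀ (by positivity)]
      nlinarith [sq_nonneg ((a + 1) - 2 * δ * j)]
    have h2 : ((k:ℝ) + 1) * ((j:ℝ) + 1) / p = a * j + a := by rw [ha]; ring
    rw [h2, hA]
    nlinarith
  have htel : ∀ κ, ‖MM d κ u‖ₑ ≤ ‖MM d 0 u‖ₑ + ∑ j ∈ Finset.range κ, ‖MM d (j + 1) u - MM d j u‖ₑ := by
    intro κ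
    induction κ with
    | zero => simp
    | succ κ ih =>
      rw [Finset.sum_range_succ, ← add_assoc]
      calc ‖MM d (κ + 1) u‖ₑ = ‖MM d κ u + (MM d (κ + 1) u - MM d κ u)‖ₑ := by
            congr 1; ring
        _ ≤ ‖MM d κ u‖ₑ + ‖MM d (κ + 1) u - MM d κ u‖ₑ := enorm_add_le _ _
        _ ≤ _ := by gcongr
  have hgeo : ∑ j ∈ Finset.range κ, e2 (-1) ^ j ≤ (1 - e2 (-1))⁻¹ := by
    rw [← ENNReal.tsum_geometric]
    exact ENNReal.sum_le_tsum _
  calc ‖MM d κ u‖ₑ ≤ ‖MM d 0 u‖ₑ + ∑ j ∈ Finset.range κ, ‖MM d (j + 1) u - MM d j u‖ₑ := htel κ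
    _ ≤ eLpNorm u (ENNReal.ofReal p) volume +
        ∑ j ∈ Finset.range κ, C1 * (e2 A * e2 (-1) ^ j) * S ^ (1 / q) := by
        gcongr with j _
        · exact MM_zero_le hp d hu
        · exact hblock j
    _ = eLpNorm u (ENNReal.ofReal p) volume +
        C1 * (e2 A * ∑ j ∈ Finset.range κ, e2 (-1) ^ j) * S ^ (1 / q) := by
        rw [Finset.mul_sum, Finset.mul_sum, Finset.sum_mul]
    _ ≤ 1 * besovNorm (k + 1) α p q u + C1 * (e2 A * (1 - e2 (-1))⁻¹) * besovNorm (k + 1) α p q u := by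
        gcongr
        · rw [hnorm, one_mul]; exact le_self_add
        · rw [hnorm]; exact le_add_self
    _ = _ := by rw [← add_mul]

/-- closed cube -/
def ccb (z : E k) (r : ℝ) : Set (E k) := {x | ∀ i, z i ≤ x i ∧ x i ≤ z i + r}

theorem cb_sub_ccb (z : E k) (r : ℝ) : cb z r ⊆ ccb z r := fun _ hx i => ⟨(hx i).1, (hx i).2.le⟩

theorem ccb_mono (z : E k) {r s : ℝ} (h : r ≤ s) : ccb z r ⊆ ccb z s :=
  fun _ hx i => ⟨(hx i).1, (hx i).2.trans (by linarith)⟩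

theorem ccb_bdd {z : E k} {r : ℝ} {x y : E k} (hr : 0 ≤ r) (hx : x ∈ ccb z r) (hy : y ∈ ccb z r) :
    ‖y - x‖ ≤ ((k:ℝ) + 1) * r := by
  have h1 : ‖y - x‖ ^ 2 ≤ (((k:ℝ) + 1) * r) ^ 2 := by
    rw [EuclideanSpace.norm_sq_eq]
    have h2 : ∀ i ∈ Finset.univ, ‖(y - x) i‖ ^ 2 ≤ r ^ 2 := by
      intro i _
      have h3 : |(y - x) i| ≤ r := by
        rw [PiLp.sub_apply, abs_le]
        have := hx i
        have := hy i
        constructor <;> linarith
      rw [Real.norm_eq_abs]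
      exact pow_le_pow_left₀ (abs_nonneg _) h3 2
    refine (Finset.sum_le_sum h2).trans ?_
    rw [Finset.sum_const, Finset.card_univ, Fintype.card_fin, nsmul_eq_mul]
    push_cast
    have : 0 ≤ (k:ℝ) := Nat.cast_nonneg _
    nlinarith [sq_nonneg r, mul_nonneg this (sq_nonneg r), mul_nonneg (mul_nonneg this this) (sq_nonneg r)]
  exact le_of_sq_le_sq h1 (by positivity)

theorem ccb_diam (z : E k) {r : ℝ} (hr : 0 ≤ r) :
    Metric.ediam (ccb z r) ≤ ENNReal.ofReal (((k:ℝ) + 1) * r) := by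
  refine Metric.ediam_le fun x hx y hy => ?_
  rw [edist_dist]
  apply ENNReal.ofReal_le_ofReal
  rw [dist_eq_norm]
  exact ccb_bdd hr hy hx

theorem ccb_closed (z : E k) (r : ℝ) : IsClosed (ccb z r) := by
  have : ccb z r = ⋂ i, {x : E k | z i ≤ x i ∧ x i ≤ z i + r} := by
    ext x; simp [ccb]
  rw [this]
  refine isClosed_iInter fun i => ?_
  have h1 : IsClosed {x : E k | z i ≤ x i} := isClosed_le (by fun_prop) (by fun_prop)
  have h2 : IsClosed {x : E k | x i ≤ z i + r} := isClosed_le (by fun_prop) (by fun_prop)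
  exact h1.inter h2

theorem ccb_compact (z : E k) {r : ℝ} (hr : 0 ≤ r) : IsCompact (ccb z r) := by
  apply Metric.isCompact_of_isClosed_isBounded (ccb_closed z r)
  exact Metric.isBounded_iff_ediam_ne_top.2 ((ccb_diam z hr).trans_lt ENNReal.ofReal_lt_top).ne

theorem cpiece_sub {m : ℕ} (z : E k) (L : ℕ) (c : Ix k m) :
    ccb (zz z L c) (1 / 2 ^ (L + tt c)) ⊆ ccb z (1 / 2 ^ L) := by
  intro x hx i
  obtain ⟨h1, h2⟩ := hx i
  rw [zz_apply] at h1 h2
  have h3 : (0:ℝ) ≤ (ww c i : ℝ) / 2 ^ (L + tt c) := by positivity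
  have h4 : ((ww c i : ℝ) + 1) / 2 ^ (L + tt c) ≤ 1 / 2 ^ L := by
    have h5 : (ww c i : ℝ) + 1 ≤ 2 ^ tt c := by
      have := ww_lt c i
      exact_mod_cast this
    rw [div_le_div_iff₀ (by positivity) (by positivity), one_mul, pow_add, mul_comm]
    exact mul_le_mul_of_nonneg_left h5 (by positivity)
  constructor
  · linarith
  · rw [add_div] at h4
    linarith

/-- the closed cube of a node -/
def ncc (d : ℝ) {κ : ℕ} (ν : Nd k κ) : Set (E k) := ccb (nd k d κ ν).1 (1 / 2 ^ nl d ν)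

/-- the compact set of stage `κ` -/
def KK (k : ℕ) (d : ℝ) (κ : ℕ) : Set (E k) := ⋃ ν : Nd k κ, ncc d ν

theorem KK_compact (d : ℝ) (κ : ℕ) : IsCompact (KK k d κ) :=
  isCompact_iUnion fun _ => ccb_compact _ (by positivity)

theorem KK_anti {d : ℝ} (hd : 0 < d) (hdk : d ≤ (k:ℝ) + 1) (κ : ℕ) : KK k d (κ + 1) ⊆ KK k d κ := by
  intro x hx
  obtain ⟨⟨ν, c⟩, hν⟩ := mem_iUnion.1 hx
  refine mem_iUnion.2 ⟨ν, ?_⟩
  have h3 := child_lev hd hdk ν c
  have h4 : (1:ℝ) / 2 ^ nl d (chd ν c) ≤ 1 / 2 ^ (nl d ν + tt c) :=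
    one_div_le_one_div_of_le (by positivity) (pow_le_pow_right₀ (by norm_num) h3)
  have h5 : x ∈ ncc d (chd ν c) := hν
  unfold ncc at h5 ⊢
  rw [nd_succ] at h5
  exact cpiece_sub _ _ c (ccb_mono _ h4 h5)

/-- the compact set -/
def KS (k : ℕ) (d : ℝ) : Set (E k) := ⋂ κ, KK k d κ

theorem KS_compact (d : ℝ) : IsCompact (KS k d) :=
  (KK_compact d 0).of_isClosed_subset (isClosed_iInter fun κ => (KK_compact d κ).isClosed)
    (iInter_subset _ 0)

theorem KS_haus {d : ℝ} (hd : 0 < d) : Measure.hausdorffMeasure d (KS k d) = 0 := by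
  have hlev : ∀ (κ : ℕ) (ν : Nd k κ), ((nd k d κ ν).2 : ℝ) + ((k:ℝ) + 1) * κ ≤ nl d ν * d :=
    fun κ ν => le_lev hd κ _
  have hed : ∀ (κ : ℕ) (ν : Nd k κ), Metric.ediam (ncc d ν) ≤
      ENNReal.ofReal ((k:ℝ) + 1) * e2 (-(nl d ν : ℝ)) := by
    intro κ ν
    refine (ccb_diam _ (by positivity)).trans (le_of_eq ?_)
    rw [ENNReal.ofReal_mul (by positivity), ← e2_half, one_div, one_div, inv_pow]
  have hpow : ∀ c : ℝ, ∀ κ : ℕ, e2 (-(c * κ)) = e2 (-c) ^ κ := by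
    intro c κ
    rw [← ENNReal.rpow_natCast, e2_mul]
    congr 1
    ring
  have hlim : ∀ c : ℝ, 0 < c → ∀ B : ℝ≥0∞, B ≠ ⊤ → Tendsto (fun κ : ℕ => B * e2 (-(c * κ))) atTop (𝓝 0) := by
    intro c hc B hB
    have h1 := ENNReal.tendsto_pow_atTop_nhds_zero_of_lt_one (e2_lt_one (show -c < 0 by linarith))
    have h2 := ENNReal.Tendsto.const_mul h1 (Or.inr hB)
    rw [mul_zero] at h2
    refine h2.congr fun κ => ?_
    rw [hpow]
  have h := Measure.hausdorffMeasure_le_liminf_sum (ι := fun κ => Nd k κ) d (KS k d) (l := atTop)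
    (fun κ => ENNReal.ofReal ((k:ℝ) + 1) * e2 (-((((k:ℝ) + 1) / d) * κ)))
    (hlim _ (by positivity) _ ENNReal.ofReal_ne_top)
    (fun κ ν => ncc d ν)
    (Eventually.of_forall fun κ ν => by
      refine (hed κ ν).trans ?_
      gcongr
      apply e2_mono
      have h1 := hlev κ ν
      have h2 : ((k:ℝ) + 1) / d * κ ≤ nl d ν := by
        rw [div_mul_eq_mul_div, div_le_iff₀ hd]
        have : (0:ℝ) ≤ ((nd k d κ ν).2 : ℝ) := Nat.cast_nonneg _
        linarith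
      linarith)
    (Eventually.of_forall fun κ => iInter_subset _ κ)
  have hsum : ∀ κ, ∑ ν : Nd k κ, Metric.ediam (ncc d ν) ^ d ≤
      ENNReal.ofReal (((k:ℝ) + 1) ^ d) * e2 (-(((k:ℝ) + 1) * κ)) := by
    intro κ
    calc ∑ ν : Nd k κ, Metric.ediam (ncc d ν) ^ d
        ≤ ∑ ν : Nd k κ, ENNReal.ofReal (((k:ℝ) + 1) ^ d) * e2 (-(((k:ℝ) + 1) * κ)) * wn d ν := by
          refine Finset.sum_le_sum fun ν _ => ?_
          refine (ENNReal.rpow_le_rpow (hed κ ν) hd.le).trans ?_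
          rw [ENNReal.mul_rpow_of_nonneg _ _ hd.le, e2_mul, ENNReal.ofReal_rpow_of_nonneg (by positivity) hd.le,
            mul_assoc]
          gcongr
          unfold wn
          rw [← e2_add]
          apply e2_mono
          have := hlev κ ν
          linarith
      _ = _ := by rw [← Finset.mul_sum, wn_sum, mul_one]
  have h0 : liminf (fun κ => ∑ ν : Nd k κ, Metric.ediam (ncc d ν) ^ d) atTop ≤ 0 := by
    have ht := hlim ((k:ℝ) + 1) (by positivity) (ENNReal.ofReal (((k:ℝ) + 1) ^ d)) ENNReal.ofReal_ne_top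
    rw [← ht.liminf_eq]
    exact liminf_le_liminf (Eventually.of_forall hsum)
  exact le_antisymm (h.trans h0) (by simp)

theorem MM_ge (d : ℝ) (κ : ℕ) {u : E k → ℝ} (hu : Continuous u) (hb : ∃ B, ∀ x, |u x| ≤ B)
    (h : ∀ x ∈ KK k d κ, 1 / 2 ≤ u x) : 1 / 2 ≤ MM d κ u := by
  unfold MM
  have h1 : ∀ ν : Nd k κ, 1 / 2 ≤ av (nd k d κ ν).1 (nl d ν) u := by
    intro ν
    unfold av
    have h2 : volume.real (cb (nd k d κ ν).1 (1 / 2 ^ nl d ν)) = 1 / 2 ^ ((k + 1) * nl d ν) := by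
      rw [measureReal_def, cb_vol _ (by positivity), ENNReal.toReal_ofReal (by positivity), div_pow,
        one_pow, ← pow_mul, mul_comm]
    have h3 : (1 / 2 : ℝ) * volume.real (cb (nd k d κ ν).1 (1 / 2 ^ nl d ν)) ≤
        ∫ x in cb (nd k d κ ν).1 (1 / 2 ^ nl d ν), u x := by
      apply setIntegral_ge_of_const_le_real (cb_meas _ _) (cb_fin _ _) _ (intOn hu hb _ _)
      intro x hx
      exact h x (mem_iUnion.2 ⟨ν, cb_sub_ccb _ _ hx⟩)
    rw [h2] at h3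
    have h4 : (0:ℝ) < 2 ^ ((k + 1) * nl d ν) := by positivity
    calc (1 / 2 : ℝ) = 2 ^ ((k + 1) * nl d ν) * (1 / 2 * (1 / 2 ^ ((k + 1) * nl d ν))) := by
          field_simp
      _ ≤ _ := mul_le_mul_of_nonneg_left h3 h4.le
  calc (1 / 2 : ℝ) = ∑ ν : Nd k κ, (1 / 2 : ℝ) ^ (nd k d κ ν).2 * (1 / 2) := by
        rw [← Finset.sum_mul, nd_weight, one_mul]
    _ ≤ _ := Finset.sum_le_sum fun ν _ => mul_le_mul_of_nonneg_left (h1 ν) (by positivity)

theorem main {α p q d : ℝ} (hα : 0 < α) (hq : 1 ≤ q) (hqp : q < p) (hd : 0 < d)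
    (hdk : d = (k:ℝ) + 1 - α * p) : 0 < besovCap (k + 1) α p q (KS k d) := by
  have hp : 1 < p := hq.trans_lt hqp
  have hp0 : 0 < p := by linarith
  have hdk' : d ≤ (k:ℝ) + 1 := by nlinarith
  obtain ⟨C, hC, hbound⟩ := MM_bound hα hq hqp hd hdk
  have hlow : ∀ u : E k → ℝ, ContDiff ℝ ∞ u → HasCompactSupport u → (∀ x ∈ KS k d, 1 ≤ u x) →
      (2 * C)⁻¹ ≤ besovNorm (k + 1) α p q u := by
    intro u hu hc hK
    have hcont := hu.continuous
    obtain ⟨B, hB⟩ := hcont.bounded_above_of_compact_support hc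
    have hb : ∃ B, ∀ x, |u x| ≤ B := ⟨B, fun x => by simpa using hB x⟩
    have hex : ∃ κ, ∀ x ∈ KK k d κ, 1 / 2 ≤ u x := by
      by_contra hcon
      push Not at hcon
      have hanti : Antitone fun κ => KK k d κ := antitone_nat_of_succ_le fun κ => KK_anti hd hdk' κ
      have hne := IsCompact.nonempty_iInter_of_sequence_nonempty_isCompact_isClosed
        (fun κ => KK k d κ ∩ {x | u x ≤ 1 / 2})
        (fun κ => inter_subset_inter_left _ (KK_anti hd hdk' κ))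
        (fun κ => by
          obtain ⟨x, hx, hx2⟩ := hcon κ
          exact ⟨x, hx, hx2.le⟩)
        ((KK_compact d 0).inter_right (isClosed_le hcont continuous_const))
        (fun κ => (KK_compact d κ).isClosed.inter (isClosed_le hcont continuous_const))
      obtain ⟨x, hx⟩ := hne
      have hx1 : x ∈ KS k d := mem_iInter.2 fun κ => (mem_iInter.1 hx κ).1
      have hx2 : u x ≤ 1 / 2 := (mem_iInter.1 hx 0).2
      have := hK x hx1
      linarith
    obtain ⟨κ, hκ⟩ := hex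
    have h1 := MM_ge d κ hcont hb hκ
    have h2 := hbound u hcont hb κ
    have h3 : (2:ℝ≥0∞)⁻¹ ≤ ‖MM d κ u‖ₑ := by
      rw [Real.enorm_eq_ofReal (by linarith)]
      calc (2:ℝ≥0∞)⁻¹ = ENNReal.ofReal (1 / 2) := by
            rw [one_div, ENNReal.ofReal_inv_of_pos (by norm_num)]; simp
        _ ≤ _ := ENNReal.ofReal_le_ofReal h1
    have h4 := h3.trans h2
    rcases eq_or_ne C 0 with h0 | h0
    · rw [h0, zero_mul] at h4
      simp at h4
    rw [ENNReal.mul_inv (Or.inl (by norm_num)) (Or.inl (by norm_num))]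
    calc (2:ℝ≥0∞)⁻¹ * C⁻¹ ≤ C * besovNorm (k + 1) α p q u * C⁻¹ := by gcongr
      _ = besovNorm (k + 1) α p q u := by
        rw [mul_comm C, mul_assoc, ENNReal.mul_inv_cancel h0 hC, mul_one]
  have hpos : (0:ℝ≥0∞) < (2 * C)⁻¹ ^ p := by
    apply ENNReal.rpow_pos_of_nonneg _ hp0.le
    rw [ENNReal.inv_pos]
    exact ENNReal.mul_ne_top (by norm_num) hC
  refine hpos.trans_le ?_
  unfold besovCap
  refine le_iInf fun u => le_iInf fun hu => le_iInf fun hc => le_iInf fun hK => ?_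
  exact ENNReal.rpow_le_rpow (hlow u hu hc hK) hp0.le

end Pool.Agent.W784.BC
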